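import Pool.Agent.PRK.Elem

set_option autoImplicit false

/-! From a conflict-free spanning set of elements to disjoint connected dominating sets. -/

namespace Pool.Agent.PRK

open scoped Classical
open Submodule

section

variable {V : Type*} [Fintype V]

/-- connected dominating set -/
def CDS (G : SimpleGraph V) (D : Set V) : Prop :=
  D.Nonempty ∧ (∀ x ∈ D, ∀ y ∈ D, ∃ p : G.Walk x y, ∀ z ∈ p.support, z ∈ D) ∧
    ∀ y, y ∉ D → ∃ x ∈ D, G.Adj x y

/-- the vertices used by class `j` -/
def cls (G : SimpleGraph V) (U : Finset V) (node : V → V) {K : ℕ} (I : Finset (El K V))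
    (j : Fin K) : Set V :=
  {x | ∃ e ∈ I, e.1 = j ∧ vv G U node K e ≠ 0 ∧ x ∈ e.2.1}

variable {G : SimpleGraph V} {U : Finset V} {node : V → V} {K : ℕ}

omit [Fintype V] in
theorem cls_disjoint {I : Finset (El K V)} (hI : ∀ e ∈ I, ∀ e' ∈ I, ¬ cf e e') {i j : Fin K}
    (hij : i ≠ j) {x : V} (hi : x ∈ cls G U node I i) (hj : x ∈ cls G U node I j) : False := by
  obtain ⟨e, he, rfl, -, hx⟩ := hi
  obtain ⟨e', he', rfl, -, hx'⟩ := hj
  exact hI e he e' he' ⟨hij, fun h => (Finset.disjoint_left.1 h) hx hx'⟩

/-- walks inside `D` -/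
def Rch (G : SimpleGraph V) (D : Set V) (x y : V) : Prop :=
  ∃ p : G.Walk x y, ∀ z ∈ p.support, z ∈ D

omit [Fintype V] in
theorem Rch.symm {D : Set V} {x y : V} (h : Rch G D x y) : Rch G D y x := by
  obtain ⟨p, hp⟩ := h
  refine ⟨p.reverse, ?_⟩
  intro z hz
  rw [SimpleGraph.Walk.support_reverse, List.mem_reverse] at hz
  exact hp z hz

omit [Fintype V] in
theorem Rch.trans {D : Set V} {x y z : V} (h : Rch G D x y) (h' : Rch G D y z) :
    Rch G D x z := by
  obtain ⟨p, hp⟩ := h
  obtain ⟨q, hq⟩ := h'
  refine ⟨p.append q, ?_⟩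
  intro w hw
  rw [SimpleGraph.Walk.mem_support_append_iff] at hw
  rcases hw with hw | hw
  · exact hp w hw
  · exact hq w hw

omit [Fintype V] in
theorem Rch.refl {D : Set V} {x : V} (h : x ∈ D) : Rch G D x x :=
  ⟨SimpleGraph.Walk.nil, by intro z hz; simp at hz; rw [hz]; exact h⟩

omit [Fintype V] in
theorem Rch.adj {D : Set V} {x y : V} (hx : x ∈ D) (hy : y ∈ D) (h : G.Adj x y) :
    Rch G D x y :=
  ⟨SimpleGraph.Walk.cons h SimpleGraph.Walk.nil, by
    intro z hz
    simp at hz
    rcases hz with rfl | rfl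
    · exact hx
    · exact hy⟩

omit [Fintype V] in
/-- all vertices of a walk in `D` are mutually reachable -/
theorem Rch.of_walk {D : Set V} {x y : V} (p : G.Walk x y) (hp : ∀ z ∈ p.support, z ∈ D)
    {z : V} (hz : z ∈ p.support) : Rch G D x z := by
  refine ⟨p.takeUntil z hz, ?_⟩
  intro w hw
  exact hp w (p.support_takeUntil_subset_support hz hw)

theorem exists_cds {r f : ℕ} (hK : 0 < K) (hr : StarFree G r) (hf : FConn G f)
    (hfr : (2 * (32 * K)) ^ (r + 1) ≤ f) :
    ∃ D : Fin K → Set V, (∀ j, CDS G (D j)) ∧ ∀ i j, i ≠ j → Disjoint (D i) (D j) := by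
  obtain ⟨U, node, hU⟩ := exists_fam (by omega : 0 < 32 * K) hr hf (by
    refine le_trans ?_ hfr
    exact Nat.pow_le_pow_right (by omega) (Nat.le_succ r))
  obtain ⟨I, hI, hspan⟩ := exists_good hK hr hf hfr hU
  refine ⟨cls G U node I, ?_, ?_⟩
  swap
  · intro i j hij
    rw [Set.disjoint_left]
    intro x hx hx'
    exact cls_disjoint hI hij hx hx'
  intro j
  set D := cls G U node I j with hD
  -- linear functionals vanishing on the chosen elements vanish on all of them
  have hfun : ∀ φ : (Fin K × V → ℚ) →ₗ[ℚ] ℚ, (∀ e ∈ I, φ (vv G U node K e) = 0) →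
      ∀ e, φ (vv G U node K e) = 0 := by
    intro φ hφ e
    have h1 : span ℚ (vv G U node K '' (I : Set (El K V))) ≤ LinearMap.ker φ := by
      rw [span_le]
      rintro _ ⟨e, he, rfl⟩
      exact hφ e (by exact_mod_cast he)
    have h2 : vv G U node K e ∈ span ℚ (vv G U node K '' (I : Set (El K V))) := by
      rw [hspan]
      exact subset_span ⟨e, rfl⟩
    exact h1 h2
  -- all differences of clique labels
  have hdiff : ∀ φ : (Fin K × V → ℚ) →ₗ[ℚ] ℚ, (∀ e ∈ I, φ (vv G U node K e) = 0) →
      ∀ x ∈ U, ∀ y ∈ U, φ (Pi.single (j, node x) 1) = φ (Pi.single (j, node y) 1) := by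
    intro φ hφ x hx y hy
    obtain ⟨b, X, h1, h2, h3⟩ := per_class (by omega : 0 < 32 * K) hr hf hfr hU ∅
    have hX : X = ∅ := by
      rw [Finset.card_empty, mul_zero, Nat.le_zero, mul_eq_zero] at h1
      rcases h1 with h1 | h1
      · omega
      · exact Finset.card_eq_zero.1 h1
    have hone : ∀ z ∈ U, φ (Pi.single (j, node z) 1 - Pi.single (j, b) 1) = 0 := by
      intro z hz
      obtain ⟨c, hc, hzc⟩ := h3 z hz
      rw [hX] at hc
      have hcb : c = b := by simpa using hc
      subst hcb
      have hD0 : used (∅ : Finset (El K V)) j = ∅ := by simp [used]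
      rw [← hD0] at hzc
      have h4 := link_span (K := K) (G := G) (U := U) (node := node) hzc
      have h5 : span ℚ (vv G U node K '' unb (∅ : Finset (El K V))) ≤ LinearMap.ker φ := by
        rw [span_le]
        rintro _ ⟨e, -, rfl⟩
        exact hfun φ hφ e
      exact h5 h4
    have h6 := hone x hx
    have h7 := hone y hy
    rw [map_sub] at h6 h7
    linarith
  -- members of `I`
  have hmemC : ∀ (i : Fin K) (S : Finset V) (u u' : V), (i, S, u, u') ∈ I → i = j →
      IsC G U S u u' → node u ≠ node u' → (∀ x ∈ S, x ∈ D) := by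
    intro i S u u' he hi hC hne x hx
    refine ⟨(i, S, u, u'), he, hi, ?_, hx⟩
    rw [vv_C hC]
    intro h0
    have := congrFun h0 (i, node u)
    simp [hne] at this
  have hmemD : ∀ (i : Fin K) (S : Finset V) (u u' : V), (i, S, u, u') ∈ I → i = j →
      IsD G U S u u' → u ∈ D := by
    intro i S u u' he hi hC
    refine ⟨(i, S, u, u'), he, hi, ?_, ?_⟩
    · rw [vv_D hC]
      intro h0
      have := congrFun h0 (i, u')
      simp at this
    · rw [hC.2.2.2]
      exact Finset.mem_singleton_self u
  -- every clique is visited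
  have hvisit : ∀ x ∈ U, ∃ y ∈ U, y ∈ D ∧ node y = node x := by
    intro x hx
    by_contra hcon
    push Not at hcon
    let φ : (Fin K × V → ℚ) →ₗ[ℚ] ℚ := LinearMap.proj (j, node x)
    have hφ : ∀ e ∈ I, φ (vv G U node K e) = 0 := by
      rintro ⟨i, S, u, u'⟩ he
      show vv G U node K (i, S, u, u') (j, node x) = 0
      by_cases h0 : vv G U node K (i, S, u, u') = 0
      · rw [h0]; rfl
      rcases vv_cases _ h0 with hC | hC
      · rw [vv_C hC]
        by_cases hij : i = j
        · by_cases hne : node u = node u'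
          · rw [hne, sub_self]; rfl
          · have hm := hmemC i S u u' he hij hC hne
            obtain ⟨p, hp, hS₀, hu, hu'⟩ := hC
            have hS : p.support.toFinset = S := hS₀
            have h1 : u ∈ D := hm u (by rw [← hS]; simp)
            have h2 : u' ∈ D := hm u' (by rw [← hS]; simp)
            have h3 : node u ≠ node x := hcon u hu h1
            have h4 : node u' ≠ node x := hcon u' hu' h2
            rw [Pi.sub_apply, Pi.single_eq_of_ne, Pi.single_eq_of_ne, sub_self]
            · intro h; exact h4 (congrArg Prod.snd h).symm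
            · intro h; exact h3 (congrArg Prod.snd h).symm
        · rw [Pi.sub_apply, Pi.single_eq_of_ne, Pi.single_eq_of_ne, sub_self]
          · intro h; exact hij (congrArg Prod.fst h).symm
          · intro h; exact hij (congrArg Prod.fst h).symm
      · rw [vv_D hC, Pi.single_eq_of_ne]
        intro h
        have h1 : node x = u' := congrArg Prod.snd h
        exact hC.2.1 (h1 ▸ hU.node_mem x hx)
    obtain ⟨a, ha, b, hb, hab⟩ := hU.two
    obtain ⟨y, hy, hyx⟩ : ∃ y ∈ U, node y ≠ node x := by
      by_cases h : node a = node x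
      · exact ⟨b, hb, fun h' => hab (h.trans h'.symm)⟩
      · exact ⟨a, ha, h⟩
    have h1 := hdiff φ hφ x hx y hy
    have h2 : φ (Pi.single (j, node x) 1) = 1 := by
      show (Pi.single (j, node x) (1 : ℚ) : Fin K × V → ℚ) (j, node x) = 1
      rw [Pi.single_eq_same]
    have h3 : φ (Pi.single (j, node y) 1) = 0 := by
      show (Pi.single (j, node y) (1 : ℚ) : Fin K × V → ℚ) (j, node x) = 0
      rw [Pi.single_eq_of_ne]
      intro h
      exact hyx (congrArg Prod.snd h).symm
    rw [h2, h3] at h1
    exact one_ne_zero h1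
  -- vertices of the same clique are reachable
  have hsame : ∀ x ∈ U, x ∈ D → ∀ y ∈ U, y ∈ D → node x = node y → Rch G D x y := by
    intro x hx hxD y hy hyD hxy
    by_cases h : x = y
    · rw [h]; exact Rch.refl hyD
    · exact Rch.adj hxD hyD (hU.adj x hx y hy hxy h)
  have hconnU : ∀ x ∈ U, x ∈ D → ∀ y ∈ U, y ∈ D → Rch G D x y := by
    intro x hx hxD y hy hyD
    by_contra hcon
    let A : Finset V := U.filter (fun a => ∃ z ∈ U, z ∈ D ∧ node z = a ∧ Rch G D x z)
    have hA : ∀ z ∈ U, z ∈ D → (node z ∈ A ↔ Rch G D x z) := by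
      intro z hz hzD
      constructor
      · intro h
        obtain ⟨-, z', hz', hzD', hn, hr'⟩ := Finset.mem_filter.1 h
        exact hr'.trans (hsame z' hz' hzD' z hz hzD hn)
      · intro h
        exact Finset.mem_filter.2 ⟨hU.node_mem z hz, z, hz, hzD, rfl, h⟩
    let φ : (Fin K × V → ℚ) →ₗ[ℚ] ℚ := ∑ a ∈ A, LinearMap.proj (j, a)
    have hφs : ∀ (i : Fin K) (a : V), φ (Pi.single (i, a) 1) = if i = j ∧ a ∈ A then 1 else 0 := by
      intro i a
      show (∑ a ∈ A, LinearMap.proj (R := ℚ) (φ := fun _ : Fin K × V => ℚ) (j, a))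
        (Pi.single (i, a) 1) = _
      rw [LinearMap.sum_apply]
      simp only [LinearMap.proj_apply]
      by_cases hi : i = j
      · subst hi
        by_cases ha : a ∈ A
        · rw [if_pos ⟨rfl, ha⟩, Finset.sum_eq_single a]
          · rw [Pi.single_eq_same]
          · intro b _ hb
            rw [Pi.single_eq_of_ne]
            intro h
            exact hb (congrArg Prod.snd h)
          · intro h; exact absurd ha h
        · rw [if_neg (fun h => ha h.2)]
          refine Finset.sum_eq_zero ?_
          intro b hb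
          rw [Pi.single_eq_of_ne]
          intro h
          have hba : b = a := congrArg Prod.snd h
          exact ha (hba ▸ hb)
      · rw [if_neg (fun h => hi h.1)]
        refine Finset.sum_eq_zero ?_
        intro b _
        rw [Pi.single_eq_of_ne]
        intro h
        exact hi (congrArg Prod.fst h).symm
    have hφ : ∀ e ∈ I, φ (vv G U node K e) = 0 := by
      rintro ⟨i, S, u, u'⟩ he
      by_cases h0 : vv G U node K (i, S, u, u') = 0
      · rw [h0, map_zero]
      rcases vv_cases _ h0 with hC | hC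
      · rw [vv_C hC, map_sub, hφs, hφs]
        by_cases hij : i = j
        · by_cases hne : node u = node u'
          · rw [hne, sub_self]
          · have hm := hmemC i S u u' he hij hC hne
            obtain ⟨p, hp, hS₀, hu, hu'⟩ := hC
            have hS : p.support.toFinset = S := hS₀
            have h1 : u ∈ D := hm u (by rw [← hS]; simp)
            have h2 : u' ∈ D := hm u' (by rw [← hS]; simp)
            have hS' : ∀ z ∈ p.support, z ∈ D := fun z hz =>
              hm z (by rw [← hS]; exact List.mem_toFinset.2 hz)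
            have h3 : Rch G D u u' := ⟨p, hS'⟩
            have h4 : node u ∈ A ↔ node u' ∈ A := by
              rw [hA u hu h1, hA u' hu' h2]
              exact ⟨fun h => h.trans h3, fun h => h.trans h3.symm⟩
            by_cases h5 : node u ∈ A
            · rw [if_pos ⟨hij, h5⟩, if_pos ⟨hij, h4.1 h5⟩, sub_self]
            · rw [if_neg (fun h => h5 h.2), if_neg (fun h => h5 (h4.2 h.2)), sub_self]
        · rw [if_neg (fun h => hij h.1), if_neg (fun h => hij h.1), sub_self]
      · rw [vv_D hC, hφs, if_neg]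
        rintro ⟨-, h⟩
        exact hC.2.1 (Finset.mem_filter.1 h).1
    have h1 := hdiff φ hφ x hx y hy
    rw [hφs, hφs, if_pos ⟨rfl, (hA x hx hxD).2 (Rch.refl hxD)⟩,
      if_neg (fun h => hcon ((hA y hy hyD).1 h.2))] at h1
    exact one_ne_zero h1
  -- every vertex of `D` reaches `U`
  have htoU : ∀ x ∈ D, ∃ y ∈ U, y ∈ D ∧ Rch G D y x := by
    rintro x ⟨⟨i, S, u, u'⟩, he, hi, h0, hx⟩
    have hS : ∀ z ∈ S, z ∈ D := fun z hz => ⟨(i, S, u, u'), he, hi, h0, hz⟩
    rcases vv_cases _ h0 with ⟨p, hp, hpS, hu, hu'⟩ | ⟨hu, hy, hadj, hSu⟩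
    · have hpS' : p.support.toFinset = S := hpS
      have hxp : x ∈ p.support := by
        rw [← List.mem_toFinset, hpS']
        exact hx
      have hall : ∀ z ∈ p.support, z ∈ D := by
        intro z hz
        refine hS z ?_
        rw [← hpS']
        exact List.mem_toFinset.2 hz
      exact ⟨u, hu, hall u p.start_mem_support, Rch.of_walk p hall hxp⟩
    · have hSu' : S = {u} := hSu
      have hxu : x = u := by
        have : x ∈ S := hx
        rw [hSu', Finset.mem_singleton] at this
        exact this
      have huD : u ∈ D := hS u (by rw [hSu']; exact Finset.mem_singleton_self u)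
      exact ⟨u, hu, huD, by rw [hxu]; exact Rch.refl huD⟩
  refine ⟨?_, ?_, ?_⟩
  · obtain ⟨a, ha, -⟩ := hU.two
    obtain ⟨y, -, hyD, -⟩ := hvisit a ha
    exact ⟨y, hyD⟩
  · intro x hx y hy
    obtain ⟨x', hx'U, hx'D, hx'⟩ := htoU x hx
    obtain ⟨y', hy'U, hy'D, hy'⟩ := htoU y hy
    exact (hx'.symm.trans (hconnU x' hx'U hx'D y' hy'U hy'D)).trans hy'
  · intro y hyD
    by_cases hyU : y ∈ U
    · obtain ⟨x, hx, hxD, hxy⟩ := hvisit y hyU
      exact ⟨x, hxD, hU.adj x hx y hyU hxy (fun h => hyD (h ▸ hxD))⟩
    · by_contra hcon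
      push Not at hcon
      let φ : (Fin K × V → ℚ) →ₗ[ℚ] ℚ := LinearMap.proj (j, y)
      have hφ : ∀ e ∈ I, φ (vv G U node K e) = 0 := by
        rintro ⟨i, S, u, u'⟩ he
        show vv G U node K (i, S, u, u') (j, y) = 0
        by_cases h0 : vv G U node K (i, S, u, u') = 0
        · rw [h0]; rfl
        rcases vv_cases _ h0 with hC | hC
        · rw [vv_C hC, Pi.sub_apply, Pi.single_eq_of_ne, Pi.single_eq_of_ne, sub_self]
          · intro h
            have h1 : y = node u' := congrArg Prod.snd h
            exact hyU (h1 ▸ hU.node_mem _ hC.choose_spec.2.2.2)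
          · intro h
            have h1 : y = node u := congrArg Prod.snd h
            exact hyU (h1 ▸ hU.node_mem _ hC.choose_spec.2.2.1)
        · rw [vv_D hC, Pi.single_eq_of_ne]
          intro h
          have h1 : j = i := congrArg Prod.fst h
          have h2 : y = u' := congrArg Prod.snd h
          have h3 := hmemD i S u u' he h1.symm hC
          exact hcon u h3 (h2 ▸ hC.2.2.1)
      -- `y` has a neighbour in `U`
      obtain ⟨b, X, h1, h2, h3⟩ := per_class (by omega : 0 < 32 * K) hr hf hfr hU ∅
      have hX : X = ∅ := by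
        rw [Finset.card_empty, mul_zero, Nat.le_zero, mul_eq_zero] at h1
        rcases h1 with h1 | h1
        · omega
        · exact Finset.card_eq_zero.1 h1
      have h4 : ∃ z ∈ U, G.Adj y z := by
        by_contra hc
        push Not at hc
        have := h2 y hyU (fun z hz hyz => absurd hyz (hc z hz))
        rw [hX] at this
        simp at this
      obtain ⟨z, hz, hyz⟩ := h4
      have h5 := hfun φ hφ (j, {z}, z, y)
      rw [vv_D ⟨hz, hyU, hyz.symm, rfl⟩] at h5
      have h6 : (Pi.single (j, y) (1 : ℚ) : Fin K × V → ℚ) (j, y) = 0 := h5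
      rw [Pi.single_eq_same] at h6
      exact one_ne_zero h6

end

end Pool.Agent.PRK
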