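import Pool.Agent.PRK.Graph

set_option autoImplicit false

/-! Components after deleting the vertices used by other classes. -/

namespace Pool.Agent.PRK

open scoped Classical

section

variable {V : Type*} [Fintype V] {G : SimpleGraph V}

/-- Two cliques are linked by a short walk avoiding `Z`. -/
def Link (G : SimpleGraph V) (U : Finset V) (node : V → V) (Z : Finset V) (a a' : V) : Prop :=
  ∃ (u u' : V) (p : G.Walk u u'), p.length ≤ 3 ∧ (∀ x ∈ p.support, x ∉ Z) ∧ u ∈ U ∧ u' ∈ U ∧
    node u = a ∧ node u' = a'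

/-- vertices outside `U` all of whose neighbours in `U` are in `Z` -/
noncomputable def iso (G : SimpleGraph V) (U Z : Finset V) : Finset V :=
  Finset.univ.filter (fun y => y ∉ U ∧ ∀ z ∈ U, G.Adj y z → z ∈ Z)

theorem mem_iso {U Z : Finset V} {y : V} :
    y ∈ iso G U Z ↔ y ∉ U ∧ ∀ z ∈ U, G.Adj y z → z ∈ Z := by
  rw [iso, Finset.mem_filter]
  simp

theorem card_iso {r t f : ℕ} (ht : 0 < t) (hf : FConn G f)
    (hfr : (2 * t) ^ (r + 1) ≤ f) {U : Finset V} {node : V → V} (hU : Fam G t (t ^ r) U node)
    (Z : Finset V) : t * (iso G U Z).card ≤ Z.card := by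
  have h1 : (iso G U Z).card * (t * t ^ r) ≤ Z.card * t ^ r := by
    refine Finset.card_mul_le_card_mul (fun y z => G.Adj y z) ?_ ?_
    · intro y hy
      rw [mem_iso] at hy
      have h2 := deg_ge hf y
      have h3 := hU.small y
      have h4 : Finset.univ.filter (fun z => G.Adj y z) ⊆
          (Finset.univ.filter (fun z => z ∉ U ∧ G.Adj y z)) ∪
            (Finset.bipartiteAbove (fun y z => G.Adj y z) Z y) := by
        intro z hz
        rw [Finset.mem_filter] at hz
        rw [Finset.mem_union, Finset.mem_filter, Finset.mem_bipartiteAbove]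
        by_cases hzU : z ∈ U
        · exact Or.inr ⟨hy.2 z hzU hz.2, hz.2⟩
        · exact Or.inl ⟨Finset.mem_univ _, hzU, hz.2⟩
      have h5 := (Finset.card_le_card h4).trans (Finset.card_union_le _ _)
      have h6 : 2 * (t * t ^ r) ≤ f := by
        refine le_trans ?_ hfr
        rw [mul_pow, pow_succ' t r]
        have : 2 ≤ 2 ^ (r + 1) := by
          calc 2 = 2 ^ 1 := (pow_one 2).symm
            _ ≤ 2 ^ (r + 1) := Nat.pow_le_pow_right (by norm_num) (by omega)
        exact Nat.mul_le_mul_right _ this
      have h7 : t ^ r ≤ t * t ^ r := Nat.le_mul_of_pos_left _ ht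
      omega
    · intro z _
      refine le_trans (Finset.card_le_card ?_) (hU.small z).le
      intro y hy
      rw [Finset.mem_bipartiteBelow] at hy
      rw [Finset.mem_filter]
      exact ⟨Finset.mem_univ _, (mem_iso.1 hy.1).1, hy.2.symm⟩
  have hpos : 0 < t ^ r := pow_pos ht r
  refine Nat.le_of_mul_le_mul_right ?_ hpos
  calc t * (iso G U Z).card * t ^ r = (iso G U Z).card * (t * t ^ r) := by ring
    _ ≤ _ := h1

/-- labels of cliques inside `Z` -/
noncomputable def blk (U : Finset V) (node : V → V) (Z : Finset V) : Finset V :=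
  (U.filter (fun x => ∀ y ∈ U, node y = node x → y ∈ Z)).image node

theorem card_blk {ρ t : ℕ} {U : Finset V} {node : V → V} (hU : Fam G t ρ U node)
    (Z : Finset V) : t * (blk U node Z).card ≤ Z.card := by
  have h1 : (blk U node Z).card * t ≤ Z.card * 1 := by
    refine Finset.card_mul_le_card_mul (fun a y => y ∈ U ∧ node y = a) ?_ ?_
    · intro a ha
      rw [blk, Finset.mem_image] at ha
      obtain ⟨x, hx, rfl⟩ := ha
      rw [Finset.mem_filter] at hx
      refine (hU.card x hx.1).trans (Finset.card_le_card ?_)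
      intro y hy
      rw [Finset.mem_filter] at hy
      rw [Finset.mem_bipartiteAbove]
      exact ⟨hx.2 y hy.1 hy.2, hy⟩
    · intro y _
      rw [Finset.card_le_one]
      intro a ha b hb
      rw [Finset.mem_bipartiteBelow] at ha hb
      rw [← ha.2.2, ← hb.2.2]
  rw [mul_comm]
  omega

/-- `G` with the vertices of `Z` isolated -/
def iso_graph (G : SimpleGraph V) (Z : Finset V) : SimpleGraph V where
  Adj x y := G.Adj x y ∧ x ∉ Z ∧ y ∉ Z
  symm := ⟨fun _ _ h => ⟨h.1.symm, h.2.2, h.2.1⟩⟩
  loopless := ⟨fun _ h => G.loopless.irrefl _ h.1⟩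

/-- components of `G - Z` -/
noncomputable def comps (G : SimpleGraph V) (Z : Finset V) :
    Finset (iso_graph G Z).ConnectedComponent :=
  (Finset.univ.filter (· ∉ Z)).image (iso_graph G Z).connectedComponentMk

theorem card_comps {r f : ℕ} (hr : StarFree G r) (hf : FConn G f) (Z : Finset V)
    (h2 : 2 ≤ (comps G Z).card) : (comps G Z).card * f ≤ Z.card * r := by
  set H := iso_graph G Z with hH
  refine Finset.card_mul_le_card_mul
    (fun c z => ∃ x, x ∉ Z ∧ H.connectedComponentMk x = c ∧ G.Adj x z) ?_ ?_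
  · intro c hc
    obtain ⟨x, hx, hxc⟩ := Finset.mem_image.1 hc
    rw [Finset.mem_filter] at hx
    obtain ⟨d, hd, hdc⟩ : ∃ d ∈ comps G Z, d ≠ c := by
      obtain ⟨d, hd, e, he, hde⟩ := Finset.one_lt_card.1 h2
      by_cases h : d = c
      · exact ⟨e, he, fun h' => hde (h.trans h'.symm)⟩
      · exact ⟨d, hd, h⟩
    obtain ⟨y, hy, hyd⟩ := Finset.mem_image.1 hd
    rw [Finset.mem_filter] at hy
    set A : Finset V := Finset.univ.filter (fun w => w ∉ Z ∧ H.connectedComponentMk w = c) with hA
    have hmem : ∀ w, w ∈ A ↔ w ∉ Z ∧ H.connectedComponentMk w = c := by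
      intro w
      rw [hA, Finset.mem_filter]
      simp
    have hclosed : ∀ a ∈ A, ∀ w, w ∉ Z → G.Adj a w → w ∈ A := by
      intro a ha w hw haw
      rw [hmem] at ha ⊢
      refine ⟨hw, ?_⟩
      rw [← ha.2]
      refine SimpleGraph.ConnectedComponent.sound ?_
      have : H.Adj w a := ⟨haw.symm, hw, ha.1⟩
      exact this.reachable
    have hb := boundary hf A (x := x) (y := y) ((hmem x).2 ⟨hx.2, hxc⟩) (fun h => by
      have := ((hmem y).1 h).2
      rw [hyd] at this
      exact hdc this) (fun a ha hay => by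
        have := ((hmem y).1 (hclosed a ha y hy.2 hay)).2
        rw [hyd] at this
        exact hdc this)
    refine hb.trans (Finset.card_le_card ?_)
    intro z hz
    rw [Finset.mem_filter] at hz
    obtain ⟨-, hzA, a, ha, haz⟩ := hz
    rw [Finset.mem_bipartiteAbove]
    refine ⟨?_, a, ((hmem a).1 ha).1, ((hmem a).1 ha).2, haz⟩
    by_contra hzZ
    exact hzA (hclosed a ha z hzZ haz)
  · intro z hz
    set S := Finset.bipartiteBelow
      (fun c z => ∃ x, x ∉ Z ∧ H.connectedComponentMk x = c ∧ G.Adj x z) (comps G Z) z with hS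
    have hS' : ∀ c ∈ S, ∃ x, x ∉ Z ∧ H.connectedComponentMk x = c ∧ G.Adj x z := by
      intro c hc
      rw [hS, Finset.mem_bipartiteBelow] at hc
      exact hc.2
    have hne : Nonempty V := ⟨z⟩
    choose! g hg1 hg2 hg3 using hS'
    have hinj : Set.InjOn g (S : Set H.ConnectedComponent) := by
      intro c hc d hd hcd
      rw [← hg2 c hc, ← hg2 d hd, hcd]
    rw [← Finset.card_image_of_injOn hinj]
    refine hr z _ ?_ ?_
    · intro x hx
      obtain ⟨c, hc, rfl⟩ := Finset.mem_image.1 hx
      exact (hg3 c hc).symm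
    · intro x hx y hy hxy
      obtain ⟨c, hc, rfl⟩ := Finset.mem_image.1 hx
      obtain ⟨d, hd, rfl⟩ := Finset.mem_image.1 hy
      have hadj : H.Adj (g c) (g d) := ⟨hxy, hg1 c hc, hg1 d hd⟩
      have : c = d := by
        rw [← hg2 c hc, ← hg2 d hd]
        exact SimpleGraph.ConnectedComponent.sound hadj.reachable
      subst this
      exact G.loopless.irrefl _ hxy

theorem per_class {r t f : ℕ} (ht : 0 < t) (hr : StarFree G r) (hf : FConn G f)
    (hfr : (2 * t) ^ (r + 1) ≤ f) {U : Finset V} {node : V → V} (hU : Fam G t (t ^ r) U node)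
    (Z : Finset V) :
    ∃ (b : V) (X : Finset V), t * X.card ≤ 3 * Z.card ∧
      (∀ y, y ∉ U → (∀ z ∈ U, G.Adj y z → z ∈ Z) → y ∈ X) ∧
      ∀ x ∈ U, ∃ c, (c ∈ X ∨ c = b) ∧ Relation.EqvGen (Link G U node Z) (node x) c := by
  have hV : Nonempty V := by
    rw [← Fintype.card_pos_iff]
    have := hf.1
    omega
  set Z' := Z ∪ iso G U Z with hZ'
  have hZZ' : ∀ x, x ∉ Z' → x ∉ Z ∧ x ∉ iso G U Z := by
    intro x hx
    rw [hZ', Finset.mem_union, not_or] at hx
    exact hx
  have hcardZ' : Z'.card ≤ 2 * Z.card := by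
    have h1 := card_iso ht hf hfr hU Z
    have h2 : (iso G U Z).card ≤ t * (iso G U Z).card := Nat.le_mul_of_pos_left _ ht
    have h3 := Finset.card_union_le Z (iso G U Z)
    rw [← hZ'] at h3
    omega
  set H := iso_graph G Z' with hH
  -- the attached vertex of `U`
  let pz : V → V := fun x => if x ∈ U then x else
    if h : ∃ z ∈ U, G.Adj x z ∧ z ∉ Z then h.choose else x
  have hpzU : ∀ x ∈ U, pz x = x := by
    intro x hx
    show (if x ∈ U then x else _) = x
    rw [if_pos hx]
  have hpz : ∀ x, x ∉ Z' → ∃ p : G.Walk (pz x) x, p.length ≤ 1 ∧ (∀ y ∈ p.support, y ∉ Z) ∧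
      pz x ∈ U := by
    intro x hx
    by_cases hxU : x ∈ U
    · rw [hpzU x hxU]
      refine ⟨SimpleGraph.Walk.nil, by simp, ?_, hxU⟩
      intro y hy
      simp at hy
      rw [hy]
      exact (hZZ' x hx).1
    · have h : ∃ z ∈ U, G.Adj x z ∧ z ∉ Z := by
        by_contra hcon
        push Not at hcon
        exact (hZZ' x hx).2 (mem_iso.2 ⟨hxU, hcon⟩)
      have h1 : pz x = h.choose := by
        show (if x ∈ U then x else if h : ∃ z ∈ U, G.Adj x z ∧ z ∉ Z then h.choose else x) = _
        rw [if_neg hxU, dif_pos h]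
      obtain ⟨h2, h3, h4⟩ := h.choose_spec
      rw [h1]
      refine ⟨SimpleGraph.Walk.cons h3.symm SimpleGraph.Walk.nil, by simp, ?_, h2⟩
      intro y hy
      simp at hy
      rcases hy with rfl | rfl
      · exact h4
      · exact (hZZ' _ hx).1
  have hlink : ∀ x y, H.Adj x y → Link G U node Z (node (pz x)) (node (pz y)) := by
    intro x y hxy
    obtain ⟨p, hp1, hp2, hp3⟩ := hpz x hxy.2.1
    obtain ⟨q, hq1, hq2, hq3⟩ := hpz y hxy.2.2
    refine ⟨pz x, pz y, p.append (SimpleGraph.Walk.cons hxy.1 q.reverse), ?_, ?_, hp3, hq3,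
      rfl, rfl⟩
    · simp
      omega
    · intro w hw
      rw [SimpleGraph.Walk.mem_support_append_iff, SimpleGraph.Walk.support_cons,
        List.mem_cons, SimpleGraph.Walk.support_reverse, List.mem_reverse] at hw
      rcases hw with hw | hw | hw
      · exact hp2 w hw
      · rw [hw]
        exact (hZZ' x hxy.2.1).1
      · exact hq2 w hw
  have hreach : ∀ x y, H.Reachable x y →
      Relation.EqvGen (Link G U node Z) (node (pz x)) (node (pz y)) := by
    rintro x y ⟨p⟩
    induction p with
    | nil => exact Relation.EqvGen.refl _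
    | cons h _ ih => exact Relation.EqvGen.trans _ _ _ (Relation.EqvGen.rel _ _ (hlink _ _ h)) ih
  have hreachU : ∀ x ∈ U, ∀ y ∈ U, H.connectedComponentMk x = H.connectedComponentMk y →
      Relation.EqvGen (Link G U node Z) (node x) (node y) := by
    intro x hx y hy hxy
    have := hreach x y (SimpleGraph.ConnectedComponent.exact hxy)
    rwa [hpzU x hx, hpzU y hy] at this
  have hfree : ∀ x ∈ U, node x ∈ blk U node Z ∨ ∃ y ∈ U, y ∉ Z' ∧ node y = node x := by
    intro x hx
    by_cases h : ∀ y ∈ U, node y = node x → y ∈ Z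
    · left
      rw [blk, Finset.mem_image]
      exact ⟨x, Finset.mem_filter.2 ⟨hx, h⟩, rfl⟩
    · right
      push Not at h
      obtain ⟨y, hy, hyx, hyZ⟩ := h
      refine ⟨y, hy, ?_, hyx⟩
      rw [hZ', Finset.mem_union, not_or]
      exact ⟨hyZ, fun h' => (mem_iso.1 h').1 hy⟩
  have hmemc : ∀ y, y ∉ Z' → H.connectedComponentMk y ∈ comps G Z' := fun y hy =>
    Finset.mem_image.2 ⟨y, Finset.mem_filter.2 ⟨Finset.mem_univ _, hy⟩, rfl⟩
  have hb1 := card_iso ht hf hfr hU Z
  have hb2 := card_blk hU Z
  by_cases hq : 2 ≤ (comps G Z').card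
  · let rep : H.ConnectedComponent → V := fun c =>
      if h : ∃ x ∈ U, x ∉ Z' ∧ H.connectedComponentMk x = c then node h.choose
      else Classical.arbitrary V
    refine ⟨Classical.arbitrary V, iso G U Z ∪ (blk U node Z ∪ (comps G Z').image rep), ?_, ?_, ?_⟩
    · have h1 := card_comps hr hf Z' hq
      have h2 : t * (comps G Z').card ≤ Z.card := by
        rcases Nat.eq_zero_or_pos r with h0 | h0
        · exfalso
          rw [h0, mul_zero] at h1
          have h3 : 0 < f := by
            refine lt_of_lt_of_le ?_ hfr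
            positivity
          have : 0 < (comps G Z').card * f := Nat.mul_pos (by omega) h3
          omega
        · have h3 : 2 * t * r ≤ f := by
            refine le_trans ?_ hfr
            rw [pow_succ']
            refine Nat.mul_le_mul_left _ ?_
            calc r ≤ 2 ^ r := Nat.lt_two_pow_self.le
              _ ≤ (2 * t) ^ r := Nat.pow_le_pow_left (by omega) r
          have h4 : (comps G Z').card * (2 * t * r) ≤ 2 * Z.card * r :=
            (Nat.mul_le_mul_left _ h3).trans (h1.trans (Nat.mul_le_mul_right _ hcardZ'))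
          have h5 : (t * (comps G Z').card) * (2 * r) ≤ Z.card * (2 * r) := by
            calc (t * (comps G Z').card) * (2 * r) = (comps G Z').card * (2 * t * r) := by ring
              _ ≤ 2 * Z.card * r := h4
              _ = Z.card * (2 * r) := by ring
          exact Nat.le_of_mul_le_mul_right h5 (by omega)
      have h6 : (iso G U Z ∪ (blk U node Z ∪ (comps G Z').image rep)).card ≤
          (iso G U Z).card + ((blk U node Z).card + (comps G Z').card) := by
        refine (Finset.card_union_le _ _).trans (Nat.add_le_add_left ?_ _)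
        exact (Finset.card_union_le _ _).trans (Nat.add_le_add_left Finset.card_image_le _)
      calc t * (iso G U Z ∪ (blk U node Z ∪ (comps G Z').image rep)).card
          ≤ t * ((iso G U Z).card + ((blk U node Z).card + (comps G Z').card)) :=
            Nat.mul_le_mul_left _ h6
        _ = t * (iso G U Z).card + (t * (blk U node Z).card + t * (comps G Z').card) := by ring
        _ ≤ 3 * Z.card := by omega
    · intro y hyU hy
      exact Finset.mem_union_left _ (mem_iso.2 ⟨hyU, hy⟩)
    · intro x hx
      rcases hfree x hx with h | ⟨y, hy, hyZ, hyx⟩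
      · exact ⟨node x, Or.inl (Finset.mem_union_right _ (Finset.mem_union_left _ h)),
          Relation.EqvGen.refl _⟩
      · set c := H.connectedComponentMk y with hc
        have h : ∃ x ∈ U, x ∉ Z' ∧ H.connectedComponentMk x = c := ⟨y, hy, hyZ, rfl⟩
        obtain ⟨h1, h2, h3⟩ := h.choose_spec
        refine ⟨rep c, Or.inl (Finset.mem_union_right _ (Finset.mem_union_right _
          (Finset.mem_image.2 ⟨c, hmemc y hyZ, rfl⟩))), ?_⟩
        have h4 : rep c = node h.choose := by
          show (if h : ∃ x ∈ U, x ∉ Z' ∧ H.connectedComponentMk x = c then node h.choose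
            else Classical.arbitrary V) = _
          rw [dif_pos h]
        rw [h4, ← hyx]
        exact hreachU y hy _ h1 (by rw [h3])
  · let b : V := if h : ∃ x ∈ U, x ∉ Z' then node h.choose else Classical.arbitrary V
    refine ⟨b, iso G U Z ∪ blk U node Z, ?_, ?_, ?_⟩
    · calc t * (iso G U Z ∪ blk U node Z).card
          ≤ t * ((iso G U Z).card + (blk U node Z).card) :=
            Nat.mul_le_mul_left _ (Finset.card_union_le _ _)
        _ = t * (iso G U Z).card + t * (blk U node Z).card := by ring
        _ ≤ 3 * Z.card := by omega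
    · intro y hyU hy
      exact Finset.mem_union_left _ (mem_iso.2 ⟨hyU, hy⟩)
    · intro x hx
      rcases hfree x hx with h | ⟨y, hy, hyZ, hyx⟩
      · exact ⟨node x, Or.inl (Finset.mem_union_right _ h), Relation.EqvGen.refl _⟩
      · have h : ∃ x ∈ U, x ∉ Z' := ⟨y, hy, hyZ⟩
        obtain ⟨h1, h2⟩ := h.choose_spec
        refine ⟨b, Or.inr rfl, ?_⟩
        have h4 : b = node h.choose := by
          show (if h : ∃ x ∈ U, x ∉ Z' then node h.choose else Classical.arbitrary V) = _
          rw [dif_pos h]
        rw [h4, ← hyx]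
        refine hreachU y hy _ h1 ?_
        have h5 : (comps G Z').card ≤ 1 := by omega
        exact Finset.card_le_one.1 h5 _ (hmemc y hyZ) _ (hmemc _ h2)

end

end Pool.Agent.PRK
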