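import Mathlib

set_option autoImplicit false

/-! A linear version of Haxell's independent transversal argument. -/

namespace Pool.Agent.PRK

open Submodule

open scoped Classical in
/-- the elements of `I` in conflict with one of `a 0, …, a (i-1)` -/
noncomputable def Wk {ι : Type*} (conf : ι → ι → Prop) (I : Finset ι) (a : ℕ → ι) (i : ℕ) :
    Finset ι :=
  I.filter (fun e => ∃ l < i, conf (a l) e)

section

variable {ι : Type*} {conf : ι → ι → Prop} {F W : Type*} [Field F] [AddCommGroup W] [Module F W]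
  {v : ι → W}

theorem mem_Wk {I : Finset ι} {a : ℕ → ι} {i : ℕ} {e : ι} :
    e ∈ Wk conf I a i ↔ e ∈ I ∧ ∃ l < i, conf (a l) e := by
  classical
  simp [Wk]

theorem Wk_subset {I : Finset ι} {a : ℕ → ι} {i : ℕ} : Wk conf I a i ⊆ I := by
  intro e he
  exact (mem_Wk.1 he).1

theorem Wk_mono {I : Finset ι} {a : ℕ → ι} {i j : ℕ} (h : i ≤ j) :
    Wk conf I a i ⊆ Wk conf I a j := by
  intro e he
  obtain ⟨h1, l, hl, h2⟩ := mem_Wk.1 he
  exact mem_Wk.2 ⟨h1, l, lt_of_lt_of_le hl h, h2⟩

/-- A valid sequence of length `s`. -/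
def Valid (F : Type*) {W : Type*} [Field F] [AddCommGroup W] [Module F W]
    (conf : ι → ι → Prop) (v : ι → W) (I : Finset ι) (a : ℕ → ι) (s : ℕ) : Prop :=
  ∀ i < s, v (a i) ∉ span F (v '' ((I : Set ι) \ Wk conf I a i)) ∧
    (∀ l < i, ¬ conf (a l) (a i)) ∧ (∀ e ∈ Wk conf I a i, ¬ conf (a i) e) ∧
    ∃ e ∈ I, e ∉ Wk conf I a i ∧ conf (a i) e

theorem Valid.mono {I : Finset ι} {a : ℕ → ι} {s t : ℕ} (h : Valid F conf v I a s) (hts : t ≤ s) :
    Valid F conf v I a t := fun i hi => h i (lt_of_lt_of_le hi hts)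

theorem Valid.card {I : Finset ι} {a : ℕ → ι} {s : ℕ} (h : Valid F conf v I a s) :
    s ≤ (Wk conf I a s).card := by
  classical
  induction s with
  | zero => exact Nat.zero_le _
  | succ s ih =>
    have h1 := ih (h.mono (Nat.le_succ s))
    obtain ⟨-, -, -, e, he1, he2, he3⟩ := h s (Nat.lt_succ_self s)
    have h2 : Wk conf I a s ⊂ Wk conf I a (s + 1) := by
      refine Finset.ssubset_iff_subset_ne.2 ⟨Wk_mono (Nat.le_succ s), ?_⟩
      intro h3
      exact he2 (h3 ▸ mem_Wk.2 ⟨he1, s, Nat.lt_succ_self s, he3⟩)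
    have := Finset.card_lt_card h2
    omega

/-- Conflict-free independent sets of size `m`. -/
structure Ind (F : Type*) {W : Type*} [Field F] [AddCommGroup W] [Module F W]
    (conf : ι → ι → Prop) (v : ι → W) (m : ℕ) (I : Finset ι) : Prop where
  lin : LinearIndepOn F v (I : Set ι)
  free : ∀ e ∈ I, ∀ e' ∈ I, ¬ conf e e'
  card : I.card = m

theorem mem_span_iff {I : Set ι} (hI : LinearIndepOn F v I) {l : ι →₀ F}
    (hl : l ∈ Finsupp.supported F F I) {A : Set ι} (hA : A ⊆ I) :
    Finsupp.linearCombination F v l ∈ span F (v '' A) ↔ (l.support : Set ι) ⊆ A := by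
  constructor
  · intro h
    obtain ⟨l', hl', h'⟩ := (Finsupp.mem_span_image_iff_linearCombination F).1 h
    have h2 : l - l' = 0 := by
      refine (linearIndepOn_iff.1 hI) (l - l') ?_ ?_
      · exact Submodule.sub_mem _ hl (Finsupp.supported_mono hA hl')
      · rw [map_sub, h', sub_self]
    have h3 : l = l' := sub_eq_zero.1 h2
    rw [h3]
    exact (Finsupp.mem_supported F l').1 hl'
  · intro h
    exact (Finsupp.mem_span_image_iff_linearCombination F).2
      ⟨l, (Finsupp.mem_supported F l).2 h, rfl⟩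


theorem Valid.cond {I : Finset ι} {a : ℕ → ι} {s i : ℕ} (h : Valid F conf v I a s) (hi : i < s) :
    v (a i) ∉ span F (v '' ((I : Set ι) \ Wk conf I a i)) ∧
    (∀ l < i, ¬ conf (a l) (a i)) ∧ (∀ e ∈ Wk conf I a i, ¬ conf (a i) e) ∧
    ∃ e ∈ I, e ∉ Wk conf I a i ∧ conf (a i) e := h i hi

theorem step {m : ℕ} (hmax : ∀ I : Finset ι, ¬ Ind F conf v (m + 1) I)
    (hsymm : ∀ e e', conf e e' → conf e' e) (hirr : ∀ e, ¬ conf e e) :
    ∀ (s : ℕ) (I : Finset ι) (a : ℕ → ι) (x : ι), Ind F conf v m I → Valid F conf v I a s →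
      v x ∉ span F (v '' ((I : Set ι) \ Wk conf I a s)) → (∀ l < s, ¬ conf (a l) x) →
      (∀ e ∈ I, ¬ conf x e) →
      ∃ (I' : Finset ι) (a' : ℕ → ι) (i : ℕ), i < s ∧ Ind F conf v m I' ∧
        Valid F conf v I' a' (i + 1) ∧
        (∀ j < i, (Wk conf I' a' (j + 1)).card = (Wk conf I a (j + 1)).card) ∧
        (Wk conf I' a' (i + 1)).card < (Wk conf I a (i + 1)).card := by
  classical
  intro s
  induction s using Nat.strong_induction_on with
  | _ s ih =>
  intro I a x hI hV hx hax hIx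
  have hxI : x ∉ I := by
    intro h
    by_cases hw : x ∈ Wk conf I a s
    · obtain ⟨-, l, hl, hc⟩ := mem_Wk.1 hw
      exact hax l hl hc
    · exact hx (subset_span ⟨x, ⟨by exact_mod_cast h, by exact_mod_cast hw⟩, rfl⟩)
  have hspan : v x ∈ span F (v '' (I : Set ι)) := by
    by_contra hcon
    refine hmax (insert x I) ⟨?_, ?_, ?_⟩
    · rw [Finset.coe_insert]
      exact hI.lin.insert hcon
    · intro e he e' he'
      rw [Finset.mem_insert] at he he'
      rcases he with rfl | he
      · rcases he' with rfl | he'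
        · exact hirr _
        · exact hIx _ he'
      · rcases he' with rfl | he'
        · exact fun h => hIx _ he (hsymm _ _ h)
        · exact hI.free _ he _ he'
    · rw [Finset.card_insert_of_notMem hxI, hI.card]
  obtain ⟨l, hl, hlx⟩ := (Finsupp.mem_span_image_iff_linearCombination F).1 hspan
  have hlI : (l.support : Set ι) ⊆ I := (Finsupp.mem_supported F l).1 hl
  have hexs : ∃ u ∈ l.support, u ∈ Wk conf I a s := by
    by_contra hcon
    push Not at hcon
    apply hx
    rw [← hlx]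
    refine (mem_span_iff hI.lin hl Set.sdiff_subset).2 ?_
    intro u hu
    exact ⟨hlI hu, by exact_mod_cast hcon u (by exact_mod_cast hu)⟩
  have hs : s ≠ 0 := by
    rintro rfl
    obtain ⟨u, -, hu⟩ := hexs
    obtain ⟨-, l', hl', -⟩ := mem_Wk.1 hu
    exact Nat.not_lt_zero _ hl'
  obtain ⟨s', rfl⟩ := Nat.exists_eq_succ_of_ne_zero hs
  have hex : ∃ i, ∃ u ∈ l.support, u ∈ Wk conf I a (i + 1) := ⟨s', hexs⟩
  set i := Nat.find hex with hi
  have hi1 : ∃ u ∈ l.support, u ∈ Wk conf I a (i + 1) := Nat.find_spec hex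
  have hi2 : i ≤ s' := Nat.find_min' hex hexs
  have hi3 : ∀ u ∈ l.support, u ∉ Wk conf I a i := by
    intro u hu hu'
    rcases Nat.eq_zero_or_pos i with h0 | h0
    · rw [h0] at hu'
      obtain ⟨-, l', hl', -⟩ := mem_Wk.1 hu'
      exact Nat.not_lt_zero _ hl'
    · obtain ⟨i', hi'⟩ := Nat.exists_eq_succ_of_ne_zero (Nat.pos_iff_ne_zero.1 h0)
      have : i' < Nat.find hex := by rw [← hi, hi']; exact Nat.lt_succ_self _
      exact Nat.find_min hex this ⟨u, hu, by rw [hi'] at hu'; exact hu'⟩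
  obtain ⟨u, hul, huW⟩ := hi1
  have huI : u ∈ I := Wk_subset huW
  have huWi : u ∉ Wk conf I a i := hi3 u hul
  set I' := insert x (I.erase u) with hI'
  have hxe : x ∉ I.erase u := fun h => hxI (Finset.mem_of_mem_erase h)
  -- the killed sets
  have hW' : ∀ j ≤ s' + 1, Wk conf I' a j = (Wk conf I a j).erase u := by
    intro j hj
    ext e
    rw [mem_Wk, Finset.mem_erase, mem_Wk, hI', Finset.mem_insert, Finset.mem_erase]
    constructor
    · rintro ⟨h1 | h1, l', hl', hc⟩
      · exact absurd (h1 ▸ hc) (hax l' (lt_of_lt_of_le hl' hj))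
      · exact ⟨h1.1, h1.2, l', hl', hc⟩
    · rintro ⟨h1, h2, l', hl', hc⟩
      exact ⟨Or.inr ⟨h1, h2⟩, l', hl', hc⟩
  have hW'' : ∀ j ≤ i, Wk conf I' a j = Wk conf I a j := by
    intro j hj
    rw [hW' j (by omega)]
    exact Finset.erase_eq_of_notMem (fun h => huWi (Wk_mono hj h))
  -- new independent set
  have hInd : Ind F conf v m I' := by
    refine ⟨?_, ?_, ?_⟩
    · rw [hI', Finset.coe_insert]
      refine (hI.lin.mono (by exact_mod_cast Finset.erase_subset u I)).insert ?_
      rw [← hlx]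
      intro h
      have h2 := (mem_span_iff hI.lin hl (A := ((I.erase u : Finset ι) : Set ι))
        (by exact_mod_cast Finset.erase_subset u I)).1 h
      have h3 : u ∈ ((I.erase u : Finset ι) : Set ι) := h2 (by exact_mod_cast hul)
      simp at h3
    · intro e he e' he'
      rw [hI', Finset.mem_insert] at he he'
      rcases he with rfl | he
      · rcases he' with rfl | he'
        · exact hirr _
        · exact hIx _ (Finset.mem_of_mem_erase he')
      · rcases he' with rfl | he'
        · exact fun h => hIx _ (Finset.mem_of_mem_erase he) (hsymm _ _ h)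
        · exact hI.free _ (Finset.mem_of_mem_erase he) _ (Finset.mem_of_mem_erase he')
    · rw [hI', Finset.card_insert_of_notMem hxe, Finset.card_erase_of_mem huI, hI.card]
      have : 0 < I.card := Finset.card_pos.2 ⟨u, huI⟩
      rw [hI.card] at this
      omega
  have hsub : ∀ j ≤ i, span F (v '' ((I' : Set ι) \ Wk conf I' a j)) ≤
      span F (v '' ((I : Set ι) \ Wk conf I a j)) := by
    intro j hj
    rw [span_le]
    rintro _ ⟨e, ⟨he1, he2⟩, rfl⟩
    rw [hW'' j hj] at he2
    have he1' : e ∈ I' := by exact_mod_cast he1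
    rw [hI', Finset.mem_insert] at he1'
    rcases he1' with rfl | he1'
    · show v e ∈ span F _
      rw [← hlx]
      refine (mem_span_iff hI.lin hl Set.sdiff_subset).2 ?_
      intro u' hu'
      exact ⟨hlI hu', fun h => hi3 u' (by exact_mod_cast hu') (Wk_mono hj (by exact_mod_cast h))⟩
    · exact subset_span ⟨e, ⟨by exact_mod_cast Finset.mem_of_mem_erase he1', he2⟩, rfl⟩
  have hcond : ∀ j ≤ i, v (a j) ∉ span F (v '' ((I' : Set ι) \ Wk conf I' a j)) ∧
      (∀ l < j, ¬ conf (a l) (a j)) ∧ (∀ e ∈ Wk conf I' a j, ¬ conf (a j) e) := by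
    intro j hj
    obtain ⟨h1, h2, h3, -⟩ := hV j (by omega)
    exact ⟨fun h => h1 (hsub j hj h), h2, by rw [hW'' j hj]; exact h3⟩
  have hVi : Valid F conf v I' a i := by
    intro j hj
    obtain ⟨h1, h2, h3⟩ := hcond j hj.le
    refine ⟨h1, h2, h3, ?_⟩
    obtain ⟨-, -, -, e, he1, he2, he3⟩ := hV j (by omega)
    refine ⟨e, ?_, by rw [hW'' j hj.le]; exact he2, he3⟩
    rw [hI', Finset.mem_insert, Finset.mem_erase]
    refine Or.inr ⟨?_, he1⟩
    rintro rfl
    exact huWi (mem_Wk.2 ⟨he1, j, hj, he3⟩)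
  have hlt : (Wk conf I' a (i + 1)).card < (Wk conf I a (i + 1)).card := by
    rw [hW' (i + 1) (by omega)]
    exact Finset.card_erase_lt_of_mem huW
  by_cases hne : ∃ e ∈ I', e ∉ Wk conf I' a i ∧ conf (a i) e
  · refine ⟨I', a, i, by omega, hInd, ?_, ?_, hlt⟩
    · intro j hj
      rcases Nat.lt_succ_iff_lt_or_eq.1 hj with h | h
      · exact hVi j h
      · subst h
        obtain ⟨h1, h2, h3⟩ := hcond _ le_rfl
        exact ⟨h1, h2, h3, hne⟩
    · intro j hj
      rw [hW'' (j + 1) (by omega)]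
  · obtain ⟨h1, h2, h3⟩ := hcond i le_rfl
    have hnc : ∀ e ∈ I', ¬ conf (a i) e := by
      intro e he hc
      by_cases hw : e ∈ Wk conf I' a i
      · exact h3 e hw hc
      · exact hne ⟨e, he, hw, hc⟩
    obtain ⟨I'', a'', i'', g1, g2, g3, g4, g5⟩ := ih i (by omega) I' a (a i) hInd hVi h1 h2 hnc
    refine ⟨I'', a'', i'', by omega, g2, g3, ?_, ?_⟩
    · intro j hj
      rw [g4 j hj, hW'' (j + 1) (by omega)]
    · rw [hW'' (i'' + 1) (by omega)] at g5
      exact g5

/-- The vector of sizes of a sequence. -/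
noncomputable def vec (conf : ι → ι → Prop) (m : ℕ) (I : Finset ι) (a : ℕ → ι) (s : ℕ) :
    Fin (m + 1) → ℕ :=
  fun j => if (j : ℕ) < s then (Wk conf I a (j + 1)).card else m + 1

theorem exists_extension_fail {m : ℕ} (I₀ : Finset ι) (hI₀ : Ind F conf v m I₀) [Nonempty ι]
    (hmax : ∀ I : Finset ι, ¬ Ind F conf v (m + 1) I)
    (hsymm : ∀ e e', conf e e' → conf e' e) (hirr : ∀ e, ¬ conf e e) :
    ∃ (I : Finset ι) (a : ℕ → ι) (s : ℕ), Ind F conf v m I ∧ Valid F conf v I a s ∧
      ∀ x, v x ∉ span F (v '' ((I : Set ι) \ Wk conf I a s)) →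
        (∀ l < s, ¬ conf (a l) x) → (∀ e ∈ Wk conf I a s, ¬ conf x e) → False := by
  classical
  let T : Set (Fin (m + 1) → ℕ) := {g | ∃ (I : Finset ι) (a : ℕ → ι) (s : ℕ),
    Ind F conf v m I ∧ Valid F conf v I a s ∧ g = vec conf m I a s}
  have hT : T.Nonempty := by
    refine ⟨_, I₀, fun _ => Classical.arbitrary ι, 0, hI₀, ?_, rfl⟩
    intro i hi
    exact absurd hi (Nat.not_lt_zero i)
  have hwf : WellFounded (Pi.Lex (· < ·) (fun {_ : Fin (m + 1)} => ((· < ·) : ℕ → ℕ → Prop))) :=
    Pi.Lex.wellFounded _ (fun _ => wellFounded_lt)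
  obtain ⟨g, ⟨I, a, s, hI, hV, hg⟩, hmin⟩ := hwf.has_min T hT
  refine ⟨I, a, s, hI, hV, ?_⟩
  intro x hx hax hWx
  have hle : ∀ (J : Finset ι) (b : ℕ → ι) (i : ℕ), Ind F conf v m J →
      (Wk conf J b i).card ≤ m := fun J b i hJ =>
    (Finset.card_le_card Wk_subset).trans hJ.card.le
  by_cases hc : ∀ e ∈ I, ¬ conf x e
  · obtain ⟨I', a', i, hi, hI', hV', h1, h2⟩ := step hmax hsymm hirr s I a x hI hV hx hax hc
    have him : i < m + 1 := by
      have := hV.card
      have := hle I a s hI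
      omega
    refine hmin (vec conf m I' a' (i + 1)) ⟨I', a', i + 1, hI', hV', rfl⟩ ⟨⟨i, him⟩, ?_, ?_⟩
    · intro j hj
      have hj' : (j : ℕ) < i := hj
      rw [hg]
      simp only [vec]
      rw [if_pos (by omega), if_pos (by omega), h1 j hj']
    · rw [hg]
      simp only [vec]
      rw [if_pos (by omega), if_pos hi]
      exact h2
  · push Not at hc
    obtain ⟨e₀, he₀, hce₀⟩ := hc
    set a' : ℕ → ι := Function.update a s x with ha'
    have hal : ∀ l < s, a' l = a l := by
      intro l hl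
      rw [ha', Function.update_of_ne (by omega)]
    have has : a' s = x := by rw [ha', Function.update_self]
    have hWj : ∀ j ≤ s, Wk conf I a' j = Wk conf I a j := by
      intro j hj
      ext e
      rw [mem_Wk, mem_Wk]
      constructor
      · rintro ⟨h1, l, hl, h2⟩
        exact ⟨h1, l, hl, by rw [hal l (by omega)] at h2; exact h2⟩
      · rintro ⟨h1, l, hl, h2⟩
        exact ⟨h1, l, hl, by rw [hal l (by omega)]; exact h2⟩
    have he₀W : e₀ ∉ Wk conf I a s := fun h => hWx e₀ h hce₀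
    have hV' : Valid F conf v I a' (s + 1) := by
      intro j hj
      rcases Nat.lt_succ_iff_lt_or_eq.1 hj with h | h
      · obtain ⟨h1, h2, h3, e, h4, h5, h6⟩ := hV j h
        rw [hal j h, hWj j h.le]
        exact ⟨h1, fun l hl => by rw [hal l (by omega)]; exact h2 l hl, h3, e, h4, h5, h6⟩
      · subst h
        rw [has, hWj _ le_rfl]
        exact ⟨hx, fun l hl => by rw [hal l hl]; exact hax l hl, hWx, e₀, he₀, he₀W, hce₀⟩
    have hsm : s < m + 1 := by
      have := hV.card
      have := hle I a s hI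
      omega
    refine hmin (vec conf m I a' (s + 1)) ⟨I, a', s + 1, hI, hV', rfl⟩ ⟨⟨s, hsm⟩, ?_, ?_⟩
    · intro j hj
      have hj' : (j : ℕ) < s := hj
      rw [hg]
      simp only [vec]
      rw [if_pos (by omega), if_pos hj', hWj _ (by omega)]
    · rw [hg]
      simp only [vec]
      rw [if_pos (by omega), if_neg (lt_irrefl s)]
      have := hle I a' (s + 1) hI
      omega

/-- **Linear Haxell lemma.** Let `v` be a finite family of vectors with a symmetric irreflexive
conflict relation. Suppose that for all finite sets `A`, `B` of nonzero members with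
`|A| ≤ |B|`, the members in conflict with nobody in `A ∪ B` span everything up to `|B|`
dimensions. Then some conflict-free set of members spans everything. -/
theorem haxell [Finite ι] (hsymm : ∀ e e', conf e e' → conf e' e) (hirr : ∀ e, ¬ conf e e)
    (hC : ∀ A B : Finset ι, (∀ e ∈ A, v e ≠ 0) → (∀ e ∈ B, v e ≠ 0) → A.card ≤ B.card →
      Module.finrank F (span F (Set.range v)) ≤
        Module.finrank F (span F (v '' {e | (∀ a ∈ A, ¬ conf a e) ∧ ∀ b ∈ B, ¬ conf e b})) +
          B.card) :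
    ∃ I : Finset ι, (∀ e ∈ I, ∀ e' ∈ I, ¬ conf e e') ∧
      span F (v '' (I : Set ι)) = span F (Set.range v) := by
  classical
  have := Fintype.ofFinite ι
  by_cases hne : Nonempty ι
  swap
  · refine ⟨∅, by simp, ?_⟩
    have : IsEmpty ι := not_nonempty_iff.1 hne
    rw [Set.range_eq_empty, Finset.coe_empty, Set.image_empty]
  -- maximal size
  have hex : ∃ m, ∃ I : Finset ι, Ind F conf v m I :=
    ⟨0, ∅, by simp, by simp, by simp⟩
  have hbd : ∀ m, (∃ I : Finset ι, Ind F conf v m I) → m ≤ Fintype.card ι := by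
    rintro m ⟨I, hI⟩
    rw [← hI.card]
    exact Finset.card_le_univ I
  obtain ⟨m, ⟨I₀, hI₀⟩, hm⟩ : ∃ m, (∃ I : Finset ι, Ind F conf v m I) ∧
      ∀ I : Finset ι, ¬ Ind F conf v (m + 1) I := by
    refine ⟨Nat.findGreatest (fun m => ∃ I : Finset ι, Ind F conf v m I) (Fintype.card ι),
      ?_, ?_⟩
    · exact Nat.findGreatest_spec (P := fun m => ∃ I : Finset ι, Ind F conf v m I)
        (Nat.zero_le _) ⟨∅, by simp, by simp, by simp⟩
    · intro I hI
      exact Nat.findGreatest_is_greatest (P := fun m => ∃ I : Finset ι, Ind F conf v m I)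
        (Nat.lt_succ_self _) (hbd _ ⟨I, hI⟩) ⟨I, hI⟩
  obtain ⟨I, a, s, hI, hV, hstuck⟩ := exists_extension_fail I₀ hI₀ hm hsymm hirr
  -- dimension count
  have hfin : ∀ S : Set ι, Module.Finite F (span F (v '' S)) := fun S =>
    Module.Finite.span_of_finite F (Set.toFinite _)
  have hfinr : Module.Finite F (span F (Set.range v)) :=
    Module.Finite.span_of_finite F (Set.toFinite _)
  have hdim : ∀ J : Finset ι, (J : Set ι) ⊆ I →
      Module.finrank F (span F (v '' (J : Set ι))) = J.card := by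
    intro J hJ
    have hlin : LinearIndepOn F v (J : Set ι) := hI.lin.mono hJ
    have h1 : LinearIndependent F (fun x : (J : Set ι) => v x) := hlin
    have h2 := finrank_span_eq_card h1
    rw [show (v '' (J : Set ι)) = Set.range (fun x : (J : Set ι) => v x) by
      ext y; simp, h2]
    simp
  set Wf := Wk conf I a s with hWf
  set A : Finset ι := (Finset.range s).image a with hA
  have hAW : A.card ≤ Wf.card := by
    refine le_trans ?_ hV.card
    refine Finset.card_image_le.trans ?_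
    simp
  have hA0 : ∀ e ∈ A, v e ≠ 0 := by
    intro e he h0
    rw [hA, Finset.mem_image] at he
    obtain ⟨l, hl, rfl⟩ := he
    obtain ⟨h1, -⟩ := hV l (Finset.mem_range.1 hl)
    rw [h0] at h1
    exact h1 (zero_mem _)
  have hB0 : ∀ e ∈ Wf, v e ≠ 0 := fun e he =>
    hI.lin.ne_zero (by exact_mod_cast Wk_subset he)
  have hCW := hC A Wf hA0 hB0 hAW
  have hsub : span F (v '' {e | (∀ a ∈ A, ¬ conf a e) ∧ ∀ b ∈ Wf, ¬ conf e b}) ≤
      span F (v '' ((I : Set ι) \ Wf)) := by
    rw [span_le]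
    rintro _ ⟨x, ⟨hx1, hx2⟩, rfl⟩
    by_contra hcon
    refine hstuck x hcon ?_ hx2
    intro l hl
    exact hx1 (a l) (Finset.mem_image.2 ⟨l, Finset.mem_range.2 hl, rfl⟩)
  have hd1 : Module.finrank F (span F (v '' ((I : Set ι) \ Wf))) = I.card - Wf.card := by
    have h1 := hdim (I \ Wf) (by exact_mod_cast Finset.sdiff_subset)
    rw [Finset.coe_sdiff] at h1
    rw [h1, Finset.card_sdiff_of_subset Wk_subset]
  have hd2 : Module.finrank F (span F (v '' (I : Set ι))) = I.card := hdim I (le_refl _)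
  have hWI : Wf.card ≤ I.card := Finset.card_le_card Wk_subset
  have := hfin ((I : Set ι) \ Wf)
  have h3 := Submodule.finrank_mono hsub
  refine ⟨I, hI.free, ?_⟩
  refine Submodule.eq_of_le_of_finrank_le ?_ ?_
  · exact span_mono (Set.image_subset_range v _)
  · rw [hd2]
    omega

end

end Pool.Agent.PRK
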