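import Pool.Agent.PRK.Comp
import Pool.Agent.PRK.HLemma

set_option autoImplicit false

/-! The elements (connectors and dominators) and the dimension condition. -/

namespace Pool.Agent.PRK

open scoped Classical
open Submodule

section

variable {V : Type*} [Fintype V]

/-- connector -/
def IsC (G : SimpleGraph V) (U S : Finset V) (u u' : V) : Prop :=
  ∃ p : G.Walk u u', p.length ≤ 3 ∧ p.support.toFinset = S ∧ u ∈ U ∧ u' ∈ U

/-- dominator -/
def IsD (G : SimpleGraph V) (U S : Finset V) (u y : V) : Prop :=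
  u ∈ U ∧ y ∉ U ∧ G.Adj u y ∧ S = {u}

/-- elements: class, used vertices, two vertices -/
abbrev El (K : ℕ) (V : Type*) := Fin K × Finset V × V × V

/-- the vector of an element -/
noncomputable def vv (G : SimpleGraph V) (U : Finset V) (node : V → V) (K : ℕ) (e : El K V) :
    Fin K × V → ℚ :=
  if IsC G U e.2.1 e.2.2.1 e.2.2.2 then
    Pi.single (e.1, node e.2.2.1) 1 - Pi.single (e.1, node e.2.2.2) 1
  else if IsD G U e.2.1 e.2.2.1 e.2.2.2 then Pi.single (e.1, e.2.2.2) 1 else 0

/-- conflict: different classes use a common vertex -/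
def cf {K : ℕ} (e e' : El K V) : Prop := e.1 ≠ e'.1 ∧ ¬ Disjoint e.2.1 e'.2.1

variable {G : SimpleGraph V} {U : Finset V} {node : V → V} {K : ℕ}

theorem vv_C {j : Fin K} {S : Finset V} {u u' : V} (h : IsC G U S u u') :
    vv G U node K (j, S, u, u') = Pi.single (j, node u) 1 - Pi.single (j, node u') 1 := by
  unfold vv
  rw [if_pos h]

theorem vv_D {j : Fin K} {S : Finset V} {u u' : V} (h : IsD G U S u u') :
    vv G U node K (j, S, u, u') = Pi.single (j, u') 1 := by
  unfold vv
  rw [if_neg, if_pos h]
  rintro ⟨p, -, -, -, h2⟩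
  exact h.2.1 h2

theorem vv_cases (e : El K V) (h : vv G U node K e ≠ 0) :
    IsC G U e.2.1 e.2.2.1 e.2.2.2 ∨ IsD G U e.2.1 e.2.2.1 e.2.2.2 := by
  by_contra hcon
  rw [not_or] at hcon
  apply h
  unfold vv
  rw [if_neg hcon.1, if_neg hcon.2]

theorem card_le_four {e : El K V} (h : vv G U node K e ≠ 0) : e.2.1.card ≤ 4 := by
  rcases vv_cases e h with ⟨p, hp, hS, -⟩ | ⟨-, -, -, hS⟩
  · rw [← hS]
    refine (List.toFinset_card_le _).trans ?_
    rw [SimpleGraph.Walk.length_support]
    omega
  · rw [hS]
    simp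

/-- vertices used by other classes -/
noncomputable def used (D : Finset (El K V)) (j : Fin K) : Finset V :=
  (D.filter (fun e => e.1 ≠ j)).biUnion (fun e => e.2.1)

theorem card_used {D : Finset (El K V)} (hD : ∀ e ∈ D, vv G U node K e ≠ 0) (j : Fin K) :
    (used D j).card ≤ 4 * D.card := by
  refine Finset.card_biUnion_le.trans ?_
  refine (Finset.sum_le_card_nsmul _ _ 4 ?_).trans ?_
  · intro e he
    exact card_le_four (hD e (Finset.mem_filter.1 he).1)
  · rw [smul_eq_mul, mul_comm]
    exact Nat.mul_le_mul_left _ (Finset.card_filter_le _ _)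

/-- the elements without conflict with `D` -/
def unb (D : Finset (El K V)) : Set (El K V) := {e | ∀ a ∈ D, ¬ cf a e}

theorem mem_unb {D : Finset (El K V)} {j : Fin K} {S : Finset V} {u u' : V}
    (h : ∀ x ∈ S, x ∉ used D j) : (j, S, u, u') ∈ unb D := by
  intro a ha hc
  obtain ⟨h1, h2⟩ := hc
  apply h2
  rw [Finset.disjoint_left]
  intro x hx hxS
  refine h x hxS ?_
  rw [used, Finset.mem_biUnion]
  exact ⟨a, Finset.mem_filter.2 ⟨ha, h1⟩, hx⟩

theorem link_span {D : Finset (El K V)} {j : Fin K} {a a' : V}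
    (h : Relation.EqvGen (Link G U node (used D j)) a a') :
    (Pi.single (j, a) 1 - Pi.single (j, a') 1 : Fin K × V → ℚ) ∈
      span ℚ (vv G U node K '' unb D) := by
  induction h with
  | rel a a' h =>
    obtain ⟨u, u', p, hp, hZ, hu, hu', rfl, rfl⟩ := h
    refine subset_span ⟨(j, p.support.toFinset, u, u'), ?_, ?_⟩
    · refine mem_unb ?_
      intro x hx
      exact hZ x (List.mem_toFinset.1 hx)
    · exact vv_C ⟨p, hp, rfl, hu, hu'⟩
  | refl a => rw [sub_self]; exact zero_mem _
  | symm a b _ ih =>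
    rw [← neg_sub]
    exact neg_mem ih
  | trans a b c _ _ ih1 ih2 =>
    rw [← sub_add_sub_cancel _ (Pi.single (j, b) 1) _]
    exact add_mem ih1 ih2

theorem link_mem {ρ t : ℕ} (hU : Fam G t ρ U node) {Z : Finset V} {a a' : V}
    (h : Relation.EqvGen (Link G U node Z) a a') : a ∈ U ↔ a' ∈ U := by
  induction h with
  | rel a a' h =>
    obtain ⟨u, u', p, hp, hZ, hu, hu', rfl, rfl⟩ := h
    exact ⟨fun _ => hU.node_mem _ hu', fun _ => hU.node_mem _ hu⟩
  | refl a => exact Iff.rfl
  | symm a b _ ih => exact ih.symm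
  | trans a b c _ _ ih1 ih2 => exact ih1.trans ih2

/-- the dimension condition of the Haxell lemma -/
theorem dim_cond {r f : ℕ} (hK : 0 < K) (hr : StarFree G r) (hf : FConn G f)
    (hfr : (2 * (32 * K)) ^ (r + 1) ≤ f) (hU : Fam G (32 * K) ((32 * K) ^ r) U node)
    (D : Finset (El K V)) (w : ℕ) (hw : D.card ≤ 2 * w) (hD : ∀ e ∈ D, vv G U node K e ≠ 0) :
    Module.finrank ℚ (span ℚ (Set.range (vv G U node K))) ≤
      Module.finrank ℚ (span ℚ (vv G U node K '' unb D)) + w := by
  have hp := fun j : Fin K => per_class (by omega : 0 < 32 * K) hr hf hfr hU (used D j)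
  choose b X hX1 hX2 hX3 using hp
  let g : Fin K → V → (Fin K × V → ℚ) := fun j x =>
    if x ∈ U then Pi.single (j, x) 1 - Pi.single (j, b j) 1 else Pi.single (j, x) 1
  let E : Finset (Fin K × V → ℚ) := Finset.univ.biUnion (fun j => (X j).image (g j))
  have hEmem : ∀ j, ∀ x ∈ X j, g j x ∈ span ℚ (E : Set (Fin K × V → ℚ)) := by
    intro j x hx
    refine subset_span ?_
    have : g j x ∈ E := by
      rw [Finset.mem_biUnion]
      exact ⟨j, Finset.mem_univ _, Finset.mem_image_of_mem _ hx⟩
    exact_mod_cast this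
  have hXc : ∀ j, 4 * K * (X j).card ≤ 3 * w := by
    intro j
    have h1 := hX1 j
    have h2 := card_used (G := G) (U := U) (node := node) hD j
    have h3 : 8 * (4 * K * (X j).card) ≤ 8 * (3 * w) := by
      calc 8 * (4 * K * (X j).card) = 32 * K * (X j).card := by ring
        _ ≤ 3 * (used D j).card := h1
        _ ≤ 8 * (3 * w) := by omega
    omega
  have hEcard : E.card ≤ w := by
    have h1 : E.card ≤ ∑ j : Fin K, (X j).card := by
      refine Finset.card_biUnion_le.trans (Finset.sum_le_sum fun j _ => Finset.card_image_le)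
    have h2 : 4 * K * ∑ j : Fin K, (X j).card ≤ K * (3 * w) := by
      rw [Finset.mul_sum]
      refine (Finset.sum_le_card_nsmul _ _ (3 * w) (fun j _ => hXc j)).trans ?_
      simp
    have h3 : K * (4 * ∑ j : Fin K, (X j).card) ≤ K * (3 * w) := by
      calc K * (4 * ∑ j : Fin K, (X j).card) = 4 * K * ∑ j : Fin K, (X j).card := by ring
        _ ≤ _ := h2
    have h4 := Nat.le_of_mul_le_mul_left h3 hK
    omega
  -- everything is in the sum
  have hsub : span ℚ (Set.range (vv G U node K)) ≤
      span ℚ (vv G U node K '' unb D) ⊔ span ℚ (E : Set (Fin K × V → ℚ)) := by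
    rw [span_le]
    rintro _ ⟨e, rfl⟩
    by_cases h0 : vv G U node K e = 0
    · rw [h0]
      exact zero_mem _
    obtain ⟨j, S, u, u'⟩ := e
    rcases vv_cases _ h0 with h | h
    · have hu : u ∈ U := h.choose_spec.2.2.1
      have hu' : u' ∈ U := h.choose_spec.2.2.2
      have hh : vv G U node K (j, S, u, u') =
          Pi.single (j, node u) 1 - Pi.single (j, node u') 1 := vv_C h
      show vv G U node K (j, S, u, u') ∈ _
      rw [hh]
      have hone : ∀ x ∈ U, (Pi.single (j, node x) 1 - Pi.single (j, b j) 1 : Fin K × V → ℚ) ∈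
          span ℚ (vv G U node K '' unb D) ⊔ span ℚ (E : Set (Fin K × V → ℚ)) := by
        intro x hx
        obtain ⟨c, hc, hxc⟩ := hX3 j x hx
        rw [← sub_add_sub_cancel _ (Pi.single (j, c) 1) _]
        refine add_mem (mem_sup_left (link_span hxc)) ?_
        rcases hc with hc | hc
        · have hcU : c ∈ U := (link_mem hU hxc).1 (hU.node_mem x hx)
          have := hEmem j c hc
          simp only [g] at this
          rw [if_pos hcU] at this
          exact mem_sup_right this
        · rw [hc, sub_self]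
          exact zero_mem _
      have h1 := hone u hu
      have h2 := hone u' hu'
      have h3 := sub_mem h1 h2
      rwa [sub_sub_sub_cancel_right] at h3
    · obtain ⟨hu, hy, hadj, hS⟩ := h
      have hh : vv G U node K (j, S, u, u') = Pi.single (j, u') 1 := vv_D ⟨hu, hy, hadj, hS⟩
      show vv G U node K (j, S, u, u') ∈ _
      rw [hh]
      by_cases hz : ∀ z ∈ U, G.Adj u' z → z ∈ used D j
      · have hyX := hX2 j u' hy hz
        have := hEmem j u' hyX
        simp only [g] at this
        rw [if_neg hy] at this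
        exact mem_sup_right this
      · push Not at hz
        obtain ⟨z, hzU, hyz, hzD⟩ := hz
        refine mem_sup_left (subset_span ⟨(j, {z}, z, u'), ?_, ?_⟩)
        · refine mem_unb ?_
          intro x hx
          rw [Finset.mem_singleton] at hx
          rw [hx]
          exact hzD
        · exact vv_D ⟨hzU, hy, hyz.symm, rfl⟩
  have h1 := Submodule.finrank_mono hsub
  have h2 := Submodule.finrank_add_le_finrank_add_finrank (span ℚ (vv G U node K '' unb D))
    (span ℚ (E : Set (Fin K × V → ℚ)))
  have h3 := finrank_span_finset_le_card (R := ℚ) E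
  have h4 : Module.finrank ℚ (span ℚ (E : Set (Fin K × V → ℚ))) ≤ E.card := h3
  omega

/-- a conflict-free set of elements spanning everything -/
theorem exists_good {r f : ℕ} (hK : 0 < K) (hr : StarFree G r) (hf : FConn G f)
    (hfr : (2 * (32 * K)) ^ (r + 1) ≤ f) (hU : Fam G (32 * K) ((32 * K) ^ r) U node) :
    ∃ I : Finset (El K V), (∀ e ∈ I, ∀ e' ∈ I, ¬ cf e e') ∧
      span ℚ (vv G U node K '' (I : Set (El K V))) = span ℚ (Set.range (vv G U node K)) := by
  refine haxell (F := ℚ) (conf := cf) ?_ ?_ ?_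
  · rintro e e' ⟨h1, h2⟩
    exact ⟨h1.symm, fun h => h2 h.symm⟩
  · rintro e ⟨h1, -⟩
    exact h1 rfl
  · intro A B hA hB hAB
    have h := dim_cond hK hr hf hfr hU (A ∪ B) B.card (by
      have := Finset.card_union_le A B
      omega) (by
      intro e he
      rw [Finset.mem_union] at he
      rcases he with he | he
      · exact hA e he
      · exact hB e he)
    refine h.trans (Nat.add_le_add_right (Submodule.finrank_mono (span_mono ?_)) _)
    refine Set.image_mono ?_
    intro e he
    refine ⟨fun a ha => he a (Finset.mem_union_left _ ha), fun a ha hc => ?_⟩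
    exact he a (Finset.mem_union_right _ ha) ⟨hc.1.symm, fun h => hc.2 h.symm⟩

end

end Pool.Agent.PRK
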