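import Mathlib

set_option autoImplicit false

/-! Graph-theoretic part: Ramsey bound, clique families, components after deleting a set. -/

namespace Pool.Agent.PRK

open scoped Classical

section

variable {V : Type*} [Fintype V] {G : SimpleGraph V}

/-- `C` is a clique -/
def Clq (G : SimpleGraph V) (C : Finset V) : Prop := ∀ x ∈ C, ∀ y ∈ C, x ≠ y → G.Adj x y

/-- `C` is independent -/
def Idp (G : SimpleGraph V) (C : Finset V) : Prop := ∀ x ∈ C, ∀ y ∈ C, ¬ G.Adj x y

/-- `f`-connectedness -/
def FConn (G : SimpleGraph V) (f : ℕ) : Prop :=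
  f < Fintype.card V ∧ ∀ S : Set V, S.ncard < f → (G.induce Sᶜ).Connected

/-- Neighbourhoods contain no `r + 1` independent vertices. -/
def StarFree (G : SimpleGraph V) (r : ℕ) : Prop :=
  ∀ (z : V) (I : Finset V), (∀ x ∈ I, G.Adj z x) → Idp G I → I.card ≤ r

omit [Fintype V] in
theorem ramsey {t : ℕ} : ∀ (r : ℕ) (S : Finset V),
    (∀ C ⊆ S, Clq G C → C.card ≠ t) → (∀ C ⊆ S, Idp G C → C.card ≠ r + 1) → S.card < t ^ r := by
  intro r
  induction r with
  | zero =>
    intro S _ h2
    rw [pow_zero, Nat.lt_one_iff, Finset.card_eq_zero]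
    by_contra hne
    obtain ⟨x, hx⟩ := Finset.nonempty_iff_ne_empty.2 hne
    refine h2 {x} (Finset.singleton_subset_iff.2 hx) ?_ (by simp)
    intro a ha b hb
    rw [Finset.mem_singleton] at ha hb
    subst ha; subst hb
    exact G.loopless.irrefl _
  | succ r ih =>
    intro S h1 h2
    by_contra hcon
    push Not at hcon
    have ht : 0 < t := by
      rcases Nat.eq_zero_or_pos t with h0 | h0
      · exfalso
        refine h1 ∅ (Finset.empty_subset _) ?_ (by rw [h0]; rfl)
        intro x hx
        simp at hx
      · exact h0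
    have key : ∀ (l : ℕ) (S' : Finset V), S' ⊆ S → l * t ^ r ≤ S'.card →
        ∃ C ⊆ S', Clq G C ∧ C.card = l := by
      intro l
      induction l with
      | zero =>
        intro S' _ _
        exact ⟨∅, Finset.empty_subset _, fun x hx => by simp at hx, rfl⟩
      | succ l ihl =>
        intro S' hS' hcard
        have hpos : 0 < t ^ r := pow_pos ht r
        have hne : S'.Nonempty := by
          rw [← Finset.card_pos]
          have : 0 < (l + 1) * t ^ r := by positivity
          omega
        obtain ⟨x, hx⟩ := hne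
        set N := S'.filter (fun y => y ≠ x ∧ ¬ G.Adj x y) with hN
        set M := S'.filter (fun y => G.Adj x y) with hM
        have hNcard : N.card < t ^ r := by
          refine ih N (fun C hC => h1 C (hC.trans ((Finset.filter_subset _ _).trans hS'))) ?_
          intro C hC hCI hCc
          have hxC : x ∉ C := by
            intro h
            have := hC h
            rw [hN, Finset.mem_filter] at this
            exact this.2.1 rfl
          refine h2 (insert x C) ?_ ?_ ?_
          · intro y hy
            rw [Finset.mem_insert] at hy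
            rcases hy with rfl | hy
            · exact hS' hx
            · exact hS' (Finset.filter_subset _ _ (hC hy))
          · intro a ha b hb
            rw [Finset.mem_insert] at ha hb
            rcases ha with rfl | ha
            · rcases hb with rfl | hb
              · exact G.loopless.irrefl _
              · have := hC hb
                rw [hN, Finset.mem_filter] at this
                exact this.2.2
            · rcases hb with rfl | hb
              · have := hC ha
                rw [hN, Finset.mem_filter] at this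
                exact fun h => this.2.2 h.symm
              · exact hCI a ha b hb
          · rw [Finset.card_insert_of_notMem hxC, hCc]
        have hcov : S' ⊆ insert x (N ∪ M) := by
          intro y hy
          rw [Finset.mem_insert, Finset.mem_union, hN, hM, Finset.mem_filter, Finset.mem_filter]
          by_cases h : y = x
          · exact Or.inl h
          · by_cases h' : G.Adj x y
            · exact Or.inr (Or.inr ⟨hy, h'⟩)
            · exact Or.inr (Or.inl ⟨hy, h, h'⟩)
        have hc1 : S'.card ≤ 1 + (N.card + M.card) := by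
          refine (Finset.card_le_card hcov).trans ((Finset.card_insert_le _ _).trans ?_)
          have := Finset.card_union_le N M
          omega
        have hc2 : l * t ^ r ≤ M.card := by
          have : (l + 1) * t ^ r = l * t ^ r + t ^ r := by ring
          omega
        obtain ⟨C, hC, hCc, hCl⟩ := ihl M ((Finset.filter_subset _ _).trans hS') hc2
        have hxC : x ∉ C := by
          intro h
          have := hC h
          rw [hM, Finset.mem_filter] at this
          exact G.loopless.irrefl _ this.2
        refine ⟨insert x C, ?_, ?_, ?_⟩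
        · intro y hy
          rw [Finset.mem_insert] at hy
          rcases hy with rfl | hy
          · exact hx
          · exact Finset.filter_subset _ _ (hC hy)
        · intro a ha b hb hab
          rw [Finset.mem_insert] at ha hb
          rcases ha with rfl | ha
          · rcases hb with rfl | hb
            · exact absurd rfl hab
            · have := hC hb
              rw [hM, Finset.mem_filter] at this
              exact this.2
          · rcases hb with rfl | hb
            · have := hC ha
              rw [hM, Finset.mem_filter] at this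
              exact this.2.symm
            · exact hCc a ha b hb hab
        · rw [Finset.card_insert_of_notMem hxC, hCl]
    obtain ⟨C, hC, hCc, hCt⟩ := key t S (le_refl _) (by
      rw [pow_succ] at hcon
      rw [mul_comm]
      exact hcon)
    exact h1 C hC hCc hCt

omit [Fintype V] in
/-- large neighbourhoods contain a clique of size `t` -/
theorem exists_clique {r t : ℕ} (hr : StarFree G r) {z : V} {S : Finset V}
    (hS : ∀ x ∈ S, G.Adj z x) (hcard : t ^ r ≤ S.card) : ∃ C ⊆ S, Clq G C ∧ C.card = t := by
  by_contra hcon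
  push Not at hcon
  refine absurd (ramsey (t := t) r S (fun C hC hCc hCt => hcon C hC hCc hCt) ?_) (by omega)
  intro C hC hCI hCr
  have := hr z C (fun x hx => hS x (hC hx)) hCI
  omega

/-- A family of disjoint cliques of size at least `t`: `U` is the union, `node x` labels the clique
of `x`. Outside `U` every neighbourhood is small. -/
structure Fam (G : SimpleGraph V) (t ρ : ℕ) (U : Finset V) (node : V → V) : Prop where
  node_mem : ∀ x ∈ U, node x ∈ U
  adj : ∀ x ∈ U, ∀ y ∈ U, node x = node y → x ≠ y → G.Adj x y
  card : ∀ x ∈ U, t ≤ (U.filter (fun y => node y = node x)).card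
  two : ∃ x ∈ U, ∃ y ∈ U, node x ≠ node y
  small : ∀ z, (Finset.univ.filter (fun y => y ∉ U ∧ G.Adj z y)).card < ρ

theorem walk_inv {W : Type*} {H : SimpleGraph W} {P : W → Prop}
    (h : ∀ a b, H.Adj a b → P a → P b) {u v : W} (p : H.Walk u v) (hu : P u) : P v := by
  induction p with
  | nil => exact hu
  | cons hab _ ih => exact ih (h _ _ hab hu)

theorem boundary {f : ℕ} (hf : FConn G f) (A : Finset V) {x y : V} (hx : x ∈ A) (hy : y ∉ A)
    (hxy : ∀ a ∈ A, ¬ G.Adj a y) :
    f ≤ (Finset.univ.filter (fun z => z ∉ A ∧ ∃ a ∈ A, G.Adj a z)).card := by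
  by_contra hcon
  push Not at hcon
  set N := Finset.univ.filter (fun z => z ∉ A ∧ ∃ a ∈ A, G.Adj a z) with hN
  have hconn := hf.2 (N : Set V) (by rw [Set.ncard_coe_finset]; exact hcon)
  have hxN : x ∈ ((N : Set V))ᶜ := by
    intro h
    have : x ∈ N := by exact_mod_cast h
    rw [hN, Finset.mem_filter] at this
    exact this.2.1 hx
  have hyN : y ∈ ((N : Set V))ᶜ := by
    intro h
    have : y ∈ N := by exact_mod_cast h
    rw [hN, Finset.mem_filter] at this
    obtain ⟨a, ha, hay⟩ := this.2.2
    exact hxy a ha hay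
  obtain ⟨p⟩ := hconn.preconnected ⟨x, hxN⟩ ⟨y, hyN⟩
  refine hy (walk_inv (P := fun w => w.1 ∈ A) ?_ p hx)
  rintro ⟨a, ha⟩ ⟨b, hb⟩ hab haA
  by_contra hbA
  refine hb ?_
  have : b ∈ N := by
    rw [hN, Finset.mem_filter]
    exact ⟨Finset.mem_univ _, hbA, a, haA, hab⟩
  exact_mod_cast this

theorem deg_ge {f : ℕ} (hf : FConn G f) (z : V) :
    f ≤ (Finset.univ.filter (fun y => G.Adj z y)).card := by
  by_cases h : ∃ y, y ≠ z ∧ ¬ G.Adj z y
  · obtain ⟨y, hyz, hzy⟩ := h
    refine (boundary hf {z} (Finset.mem_singleton_self z) (y := y) (by simpa using hyz) ?_).trans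
      (Finset.card_le_card ?_)
    · intro a ha
      rw [Finset.mem_singleton] at ha
      rw [ha]; exact hzy
    · intro w hw
      rw [Finset.mem_filter] at hw ⊢
      obtain ⟨-, -, a, ha, haw⟩ := hw
      rw [Finset.mem_singleton] at ha
      exact ⟨Finset.mem_univ _, ha ▸ haw⟩
  · push Not at h
    have h1 : Finset.univ.erase z ⊆ Finset.univ.filter (fun y => G.Adj z y) := by
      intro y hy
      rw [Finset.mem_filter]
      exact ⟨Finset.mem_univ _, h y (Finset.ne_of_mem_erase hy)⟩
    have h2 := Finset.card_le_card h1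
    rw [Finset.card_erase_of_mem (Finset.mem_univ z), Finset.card_univ] at h2
    have := hf.1
    omega

omit [Fintype V] in
theorem Clq.mono {C D : Finset V} (h : Clq G D) (hCD : C ⊆ D) : Clq G C :=
  fun x hx y hy hxy => h x (hCD hx) y (hCD hy) hxy

theorem exists_fam {r t f : ℕ} (ht : 0 < t) (hr : StarFree G r) (hf : FConn G f)
    (hfr : (2 * t) ^ r ≤ f) : ∃ U node, Fam G t (t ^ r) U node := by
  have hV : Nonempty V := by
    rw [← Fintype.card_pos_iff]
    have := hf.1
    omega
  -- families of disjoint cliques
  let P : Finset (Finset V) → Prop := fun 𝓕 => (∀ C ∈ 𝓕, Clq G C ∧ C.card = t) ∧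
    ∀ C ∈ 𝓕, ∀ D ∈ 𝓕, C ≠ D → Disjoint C D
  obtain ⟨𝓕, hP, hmax⟩ : ∃ 𝓕, P 𝓕 ∧ ∀ 𝓖, P 𝓖 → 𝓖.card ≤ 𝓕.card := by
    obtain ⟨𝓕, h1, h2⟩ := Finset.exists_max_image
      ((Finset.univ : Finset (Finset (Finset V))).filter P) Finset.card
      ⟨∅, by
        rw [Finset.mem_filter]
        exact ⟨Finset.mem_univ _, fun C hC => by simp at hC, fun C hC => by simp at hC⟩⟩
    refine ⟨𝓕, (Finset.mem_filter.1 h1).2, fun 𝓖 h => h2 𝓖 ?_⟩
    rw [Finset.mem_filter]
    exact ⟨Finset.mem_univ _, h⟩
  have hne : ∀ C ∈ 𝓕, C.Nonempty := by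
    intro C hC
    rw [← Finset.card_pos, (hP.1 C hC).2]
    exact ht
  set U : Finset V := 𝓕.biUnion id with hU
  have hmemU : ∀ x, x ∈ U ↔ ∃ C ∈ 𝓕, x ∈ C := by
    intro x
    rw [hU, Finset.mem_biUnion]
    rfl
  let rep : Finset V → V := fun C => if h : C.Nonempty then h.choose else Classical.arbitrary V
  have hrep : ∀ C ∈ 𝓕, rep C ∈ C := by
    intro C hC
    show (if h : C.Nonempty then h.choose else Classical.arbitrary V) ∈ C
    rw [dif_pos (hne C hC)]
    exact (hne C hC).choose_spec
  let node : V → V := fun x => if h : ∃ C ∈ 𝓕, x ∈ C then rep h.choose else x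
  -- the label only depends on the clique
  have huniq : ∀ C ∈ 𝓕, ∀ D ∈ 𝓕, ∀ x, x ∈ C → x ∈ D → C = D := by
    intro C hC D hD x hxC hxD
    by_contra hCD
    exact (Finset.disjoint_left.1 (hP.2 C hC D hD hCD)) hxC hxD
  have hnode : ∀ C (_ : C ∈ 𝓕) x, x ∈ C → node x = rep C := by
    intro C hC x hx
    have h : ∃ C ∈ 𝓕, x ∈ C := ⟨C, hC, hx⟩
    have h1 : node x = rep h.choose := by
      show (if h : ∃ C ∈ 𝓕, x ∈ C then rep h.choose else x) = _
      rw [dif_pos h]
    have h2 : h.choose = C := huniq _ h.choose_spec.1 _ hC x h.choose_spec.2 hx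
    rw [h1, h2]
  have hnodemem : ∀ C (_ : C ∈ 𝓕) x, x ∈ C → node x ∈ C := by
    intro C hC x hx
    rw [hnode C hC x hx]
    exact hrep C hC
  have hsame : ∀ C (_ : C ∈ 𝓕) x y, x ∈ C → y ∈ U → (node y = node x ↔ y ∈ C) := by
    intro C hC x y hx hy
    constructor
    · intro h
      obtain ⟨D, hD, hyD⟩ := (hmemU y).1 hy
      have h1 := hnodemem D hD y hyD
      rw [h] at h1
      rw [huniq C hC D hD _ (hnodemem C hC x hx) h1]
      exact hyD
    · intro h
      rw [hnode C hC x hx, hnode C hC y h]
  refine ⟨U, node, ⟨?_, ?_, ?_, ?_, ?_⟩⟩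
  · intro x hx
    obtain ⟨C, hC, hxC⟩ := (hmemU x).1 hx
    exact (hmemU _).2 ⟨C, hC, hnodemem C hC x hxC⟩
  · intro x hx y hy hxy hne'
    obtain ⟨C, hC, hxC⟩ := (hmemU x).1 hx
    exact (hP.1 C hC).1 x hxC y ((hsame C hC x y hxC hy).1 hxy.symm) hne'
  · intro x hx
    obtain ⟨C, hC, hxC⟩ := (hmemU x).1 hx
    rw [← (hP.1 C hC).2]
    refine Finset.card_le_card ?_
    intro y hy
    have hyU : y ∈ U := (hmemU y).2 ⟨C, hC, hy⟩
    rw [Finset.mem_filter]
    exact ⟨hyU, (hsame C hC x y hxC hyU).2 hy⟩
  · -- two cliques
    obtain ⟨z⟩ := hV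
    obtain ⟨Q, hQ, hQc, hQt⟩ := exists_clique (t := 2 * t) hr (z := z)
      (S := Finset.univ.filter (fun y => G.Adj z y))
      (fun x hx => (Finset.mem_filter.1 hx).2) (hfr.trans (deg_ge hf z))
    obtain ⟨A, hA, hAt⟩ := Finset.exists_subset_card_eq (s := Q) (n := t) (by omega)
    have h2 : 2 ≤ 𝓕.card := by
      have hAB : A ≠ Q \ A := by
        intro h
        have h3 : Disjoint A (Q \ A) := Finset.disjoint_sdiff
        rw [← h, Finset.disjoint_self_iff_empty] at h3
        rw [h3] at hAt
        simp at hAt
        omega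
      have := hmax {A, Q \ A} (by
        refine ⟨?_, ?_⟩
        · intro C hC
          rw [Finset.mem_insert, Finset.mem_singleton] at hC
          rcases hC with rfl | rfl
          · exact ⟨hQc.mono hA, hAt⟩
          · refine ⟨hQc.mono Finset.sdiff_subset, ?_⟩
            rw [Finset.card_sdiff_of_subset hA]
            omega
        · intro C hC D hD hCD
          rw [Finset.mem_insert, Finset.mem_singleton] at hC hD
          rcases hC with rfl | rfl <;> rcases hD with rfl | rfl
          · exact absurd rfl hCD
          · exact Finset.disjoint_sdiff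
          · exact Finset.sdiff_disjoint
          · exact absurd rfl hCD)
      rwa [Finset.card_pair hAB] at this
    obtain ⟨C, hC, D, hD, hCD⟩ := Finset.one_lt_card.1 h2
    obtain ⟨x, hx⟩ := hne C hC
    obtain ⟨y, hy⟩ := hne D hD
    have hyU : y ∈ U := (hmemU y).2 ⟨D, hD, hy⟩
    refine ⟨x, (hmemU x).2 ⟨C, hC, hx⟩, y, hyU, ?_⟩
    intro h
    exact hCD (huniq C hC D hD y ((hsame C hC x y hx hyU).1 h.symm) hy)
  · intro z
    by_contra hcon
    push Not at hcon
    obtain ⟨Q, hQ, hQc, hQt⟩ := exists_clique (t := t) hr (z := z)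
      (S := Finset.univ.filter (fun y => y ∉ U ∧ G.Adj z y))
      (fun x hx => (Finset.mem_filter.1 hx).2.2) hcon
    have hQU : ∀ x ∈ Q, x ∉ U := fun x hx => (Finset.mem_filter.1 (hQ hx)).2.1
    have hQF : Q ∉ 𝓕 := by
      intro h
      obtain ⟨x, hx⟩ := hne Q h
      exact hQU x hx ((hmemU x).2 ⟨Q, h, hx⟩)
    have := hmax (insert Q 𝓕) (by
      refine ⟨?_, ?_⟩
      · intro C hC
        rw [Finset.mem_insert] at hC
        rcases hC with rfl | hC
        · exact ⟨hQc, hQt⟩
        · exact hP.1 C hC
      · intro C hC D hD hCD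
        rw [Finset.mem_insert] at hC hD
        rcases hC with rfl | hC
        · rcases hD with rfl | hD
          · exact absurd rfl hCD
          · rw [Finset.disjoint_left]
            intro x hx hx'
            exact hQU x hx ((hmemU x).2 ⟨D, hD, hx'⟩)
        · rcases hD with rfl | hD
          · rw [Finset.disjoint_left]
            intro x hx hx'
            exact hQU x hx' ((hmemU x).2 ⟨C, hC, hx⟩)
          · exact hP.2 C hC D hD hCD)
    rw [Finset.card_insert_of_notMem hQF] at this
    omega

end

end Pool.Agent.PRK
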