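import Pool.Agent.PRK.Cds

set_option autoImplicit false

/-! From disjoint connected dominating sets to the removable path. -/

namespace Pool.Agent.PRK

open scoped Classical

section

variable {V : Type*} {G : SimpleGraph V}

theorem exists_induced_path {A : Set V} {v w : V} (h : Rch G A v w) :
    ∃ p : G.Walk v w, p.IsPath ∧ (∀ x ∈ p.support, x ∈ A) ∧
      ∀ x ∈ p.support, ∀ y ∈ p.support, G.Adj x y → s(x, y) ∈ p.edges := by
  have hex : ∃ n, ∃ p : G.Walk v w, (∀ x ∈ p.support, x ∈ A) ∧ p.length = n := by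
    obtain ⟨p, hp⟩ := h
    exact ⟨p.length, p, hp, rfl⟩
  obtain ⟨p₀, hp₀, hlen₀⟩ := Nat.find_spec hex
  have hmin : ∀ q : G.Walk v w, (∀ x ∈ q.support, x ∈ A) → Nat.find hex ≤ q.length :=
    fun q hq => Nat.find_min' hex ⟨q, hq, rfl⟩
  set p := p₀.bypass with hp
  have hpA : ∀ x ∈ p.support, x ∈ A := fun x hx =>
    hp₀ x (p₀.support_bypass_subset_support hx)
  have hplen : p.length ≤ Nat.find hex := by
    rw [← hlen₀]
    exact p₀.length_bypass_le_length
  refine ⟨p, p₀.bypass_isPath, hpA, ?_⟩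
  have key : ∀ i j, i ≤ p.length → j ≤ p.length → i < j → G.Adj (p.getVert i) (p.getVert j) →
      j = i + 1 := by
    intro i j hi hj hij hadj
    by_contra hne
    let q : G.Walk v w := (p.take i).append (SimpleGraph.Walk.cons hadj (p.drop j))
    have hq : ∀ x ∈ q.support, x ∈ A := by
      intro x hx
      rw [SimpleGraph.Walk.mem_support_append_iff, SimpleGraph.Walk.support_cons,
        List.mem_cons] at hx
      rcases hx with hx | hx | hx
      · rw [SimpleGraph.Walk.support_take] at hx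
        exact hpA x (List.mem_of_mem_take hx)
      · rw [hx]
        exact hpA _ (p.getVert_mem_support i)
      · rw [SimpleGraph.Walk.drop_support_eq_support_drop_min] at hx
        exact hpA x (List.mem_of_mem_drop hx)
    have h1 := hmin q hq
    have h2 : q.length = min i p.length + (p.length - j + 1) := by
      simp [q, SimpleGraph.Walk.take_length, SimpleGraph.Walk.drop_length]
    rw [min_eq_left hi] at h2
    omega
  intro x hx y hy hxy
  obtain ⟨i, rfl, hi⟩ := SimpleGraph.Walk.mem_support_iff_exists_getVert.1 hx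
  obtain ⟨j, rfl, hj⟩ := SimpleGraph.Walk.mem_support_iff_exists_getVert.1 hy
  rcases lt_trichotomy i j with h | h | h
  · have := key i j hi hj h hxy
    rw [SimpleGraph.Walk.mk_mem_edges_iff_exists]
    exact ⟨i, by omega, by rw [this]⟩
  · subst h
    exact absurd hxy (G.loopless.irrefl _)
  · have := key j i hj hi h hxy.symm
    rw [Sym2.eq_swap, SimpleGraph.Walk.mk_mem_edges_iff_exists]
    exact ⟨j, by omega, by rw [this]⟩

theorem reach_ind {B : Set V} {S : Set B} {D : Set V}
    (hD : ∀ x ∈ D, ∃ hB : x ∈ B, (⟨x, hB⟩ : B) ∈ Sᶜ) {x y : V} (p : G.Walk x y)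
    (hp : ∀ z ∈ p.support, z ∈ D) :
    ∀ (hx : x ∈ B) (hx' : (⟨x, hx⟩ : B) ∈ Sᶜ) (hy : y ∈ B) (hy' : (⟨y, hy⟩ : B) ∈ Sᶜ),
      ((G.induce B).induce Sᶜ).Reachable ⟨⟨x, hx⟩, hx'⟩ ⟨⟨y, hy⟩, hy'⟩ := by
  induction p with
  | nil =>
    intro hx hx' hy hy'
    exact SimpleGraph.Reachable.refl _
  | @cons a b c h q ih =>
    intro hx hx' hy hy'
    have hb : b ∈ D := hp b (by
      rw [SimpleGraph.Walk.support_cons]
      exact List.mem_cons_of_mem _ q.start_mem_support)
    obtain ⟨hbB, hbS⟩ := hD b hb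
    have hadj : ((G.induce B).induce Sᶜ).Adj ⟨⟨a, hx⟩, hx'⟩ ⟨⟨b, hbB⟩, hbS⟩ := h
    refine hadj.reachable.trans (ih ?_ hbB hbS hy hy')
    intro z hz
    exact hp z (by
      rw [SimpleGraph.Walk.support_cons]
      exact List.mem_cons_of_mem _ hz)

theorem removable [Fintype V] {k : ℕ} {D : Fin (k + 4) → Set V} (hD : ∀ j, CDS G (D j))
    (hdis : ∀ i j, i ≠ j → Disjoint (D i) (D j)) (v w : V) :
    ∃ p : G.Walk v w,
      p.IsPath ∧
      (∀ x ∈ p.support, ∀ y ∈ p.support, G.Adj x y → s(x, y) ∈ p.edges) ∧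
      k < Nat.card ({x : V | x ∉ p.support} : Set V) ∧
      ∀ S : Set ({x : V | x ∉ p.support} : Set V), S.ncard < k →
        ((G.induce ({x : V | x ∉ p.support} : Set V)).induce Sᶜ).Connected := by
  have hdis' : ∀ i j x, x ∈ D i → x ∈ D j → i = j := by
    intro i j x hi hj
    by_contra hij
    exact (Set.disjoint_left.1 (hdis i j hij)) hi hj
  set A : Set V := {x | x ∈ D 0 ∨ x = v ∨ x = w} with hA
  have hreach : Rch G A v w := by
    obtain ⟨hne, hconn, hdom⟩ := hD 0
    have hto : ∀ x, x ∈ A → ∃ y ∈ D 0, Rch G A x y := by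
      intro x hxA
      by_cases hx : x ∈ D 0
      · exact ⟨x, hx, Rch.refl hxA⟩
      · obtain ⟨y, hy, hyx⟩ := hdom x hx
        exact ⟨y, hy, Rch.adj hxA (Or.inl hy) hyx.symm⟩
    obtain ⟨x, hx, hvx⟩ := hto v (Or.inr (Or.inl rfl))
    obtain ⟨y, hy, hwy⟩ := hto w (Or.inr (Or.inr rfl))
    obtain ⟨p, hp⟩ := hconn x hx y hy
    exact (hvx.trans ⟨p, fun z hz => Or.inl (hp z hz)⟩).trans hwy.symm
  obtain ⟨p, hpath, hpA, hind⟩ := exists_induced_path hreach
  refine ⟨p, hpath, hind, ?_⟩
  set B : Set V := {x : V | x ∉ p.support} with hB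
  let J : Finset (Fin (k + 4)) := Finset.univ.filter (fun j => j ≠ 0 ∧ v ∉ D j ∧ w ∉ D j)
  have hJ : k + 1 ≤ J.card := by
    have h1 : (Finset.univ : Finset (Fin (k + 4))) ⊆ J ∪ ({0} ∪
        (Finset.univ.filter (fun j => v ∈ D j) ∪ Finset.univ.filter (fun j => w ∈ D j))) := by
      intro j _
      rw [Finset.mem_union, Finset.mem_union, Finset.mem_union, Finset.mem_filter,
        Finset.mem_filter, Finset.mem_filter, Finset.mem_singleton]
      by_cases h1 : j = 0
      · exact Or.inr (Or.inl h1)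
      · by_cases h2 : v ∈ D j
        · exact Or.inr (Or.inr (Or.inl ⟨Finset.mem_univ _, h2⟩))
        · by_cases h3 : w ∈ D j
          · exact Or.inr (Or.inr (Or.inr ⟨Finset.mem_univ _, h3⟩))
          · exact Or.inl ⟨Finset.mem_univ _, h1, h2, h3⟩
    have h2 : ∀ x : V, (Finset.univ.filter (fun j => x ∈ D j)).card ≤ 1 := by
      intro x
      rw [Finset.card_le_one]
      intro i hi j hj
      exact hdis' i j x (Finset.mem_filter.1 hi).2 (Finset.mem_filter.1 hj).2
    have h3 := Finset.card_le_card h1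
    rw [Finset.card_univ, Fintype.card_fin] at h3
    have h4 := Finset.card_union_le J ({0} ∪
        (Finset.univ.filter (fun j => v ∈ D j) ∪ Finset.univ.filter (fun j => w ∈ D j)))
    have h5 := Finset.card_union_le ({0} : Finset (Fin (k + 4)))
        (Finset.univ.filter (fun j => v ∈ D j) ∪ Finset.univ.filter (fun j => w ∈ D j))
    have h6 := Finset.card_union_le (Finset.univ.filter (fun j => v ∈ D j))
      (Finset.univ.filter (fun j => w ∈ D j))
    have h7 := h2 v
    have h8 := h2 w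
    rw [Finset.card_singleton] at h5
    omega
  have hJB : ∀ j ∈ J, ∀ x ∈ D j, x ∈ B := by
    intro j hj x hx hxp
    obtain ⟨-, h1, h2, h3⟩ := Finset.mem_filter.1 hj
    rcases hpA x hxp with h | h | h
    · exact h1 (hdis' j 0 x hx h)
    · exact h2 (h ▸ hx)
    · exact h3 (h ▸ hx)
  choose d hd using fun j => (hD j).1
  have hdinj : Function.Injective d := by
    intro i j hij
    exact hdis' i j (d i) (hd i) (hij ▸ hd j)
  refine ⟨?_, ?_⟩
  · have h1 : ((J.image d : Finset V) : Set V) ⊆ B := by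
      intro x hx
      rw [Finset.mem_coe, Finset.mem_image] at hx
      obtain ⟨j, hj, rfl⟩ := hx
      exact hJB j hj _ (hd j)
    have h2 := Set.ncard_le_ncard h1 (Set.toFinite _)
    rw [Set.ncard_coe_finset, Finset.card_image_of_injective _ hdinj] at h2
    have h3 : Nat.card B = B.ncard := rfl
    omega
  · intro S hS
    -- a class avoiding `S`
    obtain ⟨j, hjJ, hjS⟩ : ∃ j ∈ J, ∀ s ∈ S, (s : V) ∉ D j := by
      by_contra hcon
      push Not at hcon
      have hBne : Nonempty B := by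
        obtain ⟨j, hj⟩ := Finset.card_pos.1 (by omega : 0 < J.card)
        exact ⟨⟨d j, hJB j hj _ (hd j)⟩⟩
      choose! g hg1 hg2 using hcon
      have h1 : ((J.image g : Finset B) : Set B) ⊆ S := by
        intro x hx
        rw [Finset.mem_coe, Finset.mem_image] at hx
        obtain ⟨j, hj, rfl⟩ := hx
        exact hg1 j hj
      have h2 := Set.ncard_le_ncard h1 (Set.toFinite _)
      have h3 : Set.InjOn g (J : Set (Fin (k + 4))) := by
        intro i hi j hj hij
        exact hdis' i j (g i) (hg2 i hi) (hij ▸ hg2 j hj)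
      rw [Set.ncard_coe_finset, Finset.card_image_of_injOn h3] at h2
      omega
    have hgood : ∀ x ∈ D j, ∃ hB : x ∈ B, (⟨x, hB⟩ : B) ∈ Sᶜ := by
      intro x hx
      refine ⟨hJB j hjJ x hx, ?_⟩
      intro h
      exact hjS _ h hx
    obtain ⟨hne, hconn, hdom⟩ := hD j
    obtain ⟨x₀, hx₀⟩ := hne
    obtain ⟨hx₀B, hx₀S⟩ := hgood x₀ hx₀
    have hto : ∀ a : (Sᶜ : Set B), ((G.induce B).induce Sᶜ).Reachable a ⟨⟨x₀, hx₀B⟩, hx₀S⟩ := by
      rintro ⟨⟨a, haB⟩, haS⟩
      by_cases ha : a ∈ D j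
      · obtain ⟨q, hq⟩ := hconn a ha x₀ hx₀
        exact reach_ind hgood q hq haB haS hx₀B hx₀S
      · obtain ⟨y, hy, hya⟩ := hdom a ha
        obtain ⟨hyB, hyS⟩ := hgood y hy
        have hadj : ((G.induce B).induce Sᶜ).Adj ⟨⟨a, haB⟩, haS⟩ ⟨⟨y, hyB⟩, hyS⟩ := hya.symm
        obtain ⟨q, hq⟩ := hconn y hy x₀ hx₀
        exact hadj.reachable.trans (reach_ind hgood q hq hyB hyS hx₀B hx₀S)
    have : Nonempty (Sᶜ : Set B) := ⟨⟨⟨x₀, hx₀B⟩, hx₀S⟩⟩
    exact ⟨fun a b => (hto a).trans (hto b).symm⟩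

/-- **Path removal in star-free graphs.** -/
theorem main [Fintype V] (k r : ℕ)
    (hconn : (64 * (k + 4)) ^ r < Fintype.card V ∧
      ∀ S : Set V, S.ncard < (64 * (k + 4)) ^ r → (G.induce Sᶜ).Connected)
    (hstar : ∀ (z : V) (I : Set V), I ⊆ G.neighborSet z → G.IsIndepSet I → I.ncard < r)
    (v w : V) :
    ∃ p : G.Walk v w,
      p.IsPath ∧
      (∀ x ∈ p.support, ∀ y ∈ p.support, G.Adj x y → s(x, y) ∈ p.edges) ∧
      k < Nat.card ({x : V | x ∉ p.support} : Set V) ∧
      ∀ S : Set ({x : V | x ∉ p.support} : Set V), S.ncard < k →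
        ((G.induce ({x : V | x ∉ p.support} : Set V)).induce Sᶜ).Connected := by
  rcases r with _ | r
  · exfalso
    have := hstar v ∅ (Set.empty_subset _) (by intro x hx; exact absurd hx (Set.notMem_empty x))
    exact Nat.not_lt_zero _ this
  · have hr : StarFree G r := by
      intro z I hI hI'
      have := hstar z (I : Set V) (fun x hx => hI x (by exact_mod_cast hx))
        (fun x hx y hy _ => hI' x (by exact_mod_cast hx) y (by exact_mod_cast hy))
      rw [Set.ncard_coe_finset] at this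
      omega
    obtain ⟨D, hD, hdis⟩ := exists_cds (K := k + 4) (by omega) hr hconn (by
      refine Nat.pow_le_pow_left ?_ _
      omega)
    exact removable hD hdis v w

end

end Pool.Agent.PRK
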